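import Pool.Agent.TH6.CX.Trunc

set_option autoImplicit false
set_option linter.style.haveILetI false
set_option linter.unusedSectionVars false
set_option linter.unusedVariables false

/-! Torsion of contractible complexes whose boundary operator or contraction is thin. -/

namespace TH6.CX

open Matrix TH57.Thr TH6.LF

variable {Γ : Type} [Group Γ] {ι : Type} [Fintype ι] [DecidableEq ι]

/-- the form of the frozen statement of the vanishing of Whitehead groups -/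
theorem TT_explicit {κ : Type} [Fintype κ] [DecidableEq κ]
    (A : (Matrix κ κ (MonoidAlgebra ℤ Γ))ˣ) (h : TT (TU Γ) A) :
    ∃ (m : ℕ) (g : Γ) (ε : ℤˣ)
      (C : (Matrix (κ ⊕ Fin (m + 1)) (κ ⊕ Fin (m + 1)) (MonoidAlgebra ℤ Γ))ˣ),
      C ∈ commutator (Matrix (κ ⊕ Fin (m + 1)) (κ ⊕ Fin (m + 1)) (MonoidAlgebra ℤ Γ))ˣ ∧
      Matrix.fromBlocks (↑A : Matrix κ κ (MonoidAlgebra ℤ Γ))
          (0 : Matrix κ (Fin (m + 1)) (MonoidAlgebra ℤ Γ))
          (0 : Matrix (Fin (m + 1)) κ (MonoidAlgebra ℤ Γ))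
          (1 : Matrix (Fin (m + 1)) (Fin (m + 1)) (MonoidAlgebra ℤ Γ)) =
        Matrix.diagonal (fun i : κ ⊕ Fin (m + 1) =>
            if i = Sum.inr (0 : Fin (m + 1)) then
              (MonoidAlgebra.single g ((ε : ℤ)) : MonoidAlgebra ℤ Γ) else 1) *
          (↑C : Matrix (κ ⊕ Fin (m + 1)) (κ ⊕ Fin (m + 1)) (MonoidAlgebra ℤ Γ)) := by
  obtain ⟨μ, i1, i2, h1⟩ := h
  have h2 := (TT_more (TU Γ) A μ h1 (Fin 1)).1
  have hcard : Fintype.card (Fin (Fintype.card μ + 1)) = Fintype.card (μ ⊕ Fin 1) := by simp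
  let e : Fin (Fintype.card μ + 1) ≃ (μ ⊕ Fin 1) := Fintype.equivOfCardEq hcard
  have h3 := re_mem (TU Γ) (Equiv.sumCongr (Equiv.refl κ) e) _ h2
  obtain ⟨u, ⟨g, ε, hu⟩, C, hC, h4⟩ := HH_form (TU Γ)
    (Sum.inr (0 : Fin (Fintype.card μ + 1))) _ h3
  refine ⟨Fintype.card μ, g, ε, C, hC, ?_⟩
  have h5 := congrArg Units.val h4
  rw [Units.val_mul] at h5
  convert h5 using 1
  · ext (i | i) (j | j) <;> simp [stm, re, Matrix.one_apply]
  · congr 1
    change _ = dgm (Sum.inr (0 : Fin (Fintype.card μ + 1))) (u : MonoidAlgebra ℤ Γ)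
    rw [dgm_apply, hu]
    congr 1
    funext i
    by_cases h : i = Sum.inr (0 : Fin (Fintype.card μ + 1))
    · subst h; simp
    · rw [if_neg h, Function.update_of_ne h]; rfl

theorem TT_contraction (htf : ∀ g : Γ, ∀ k : ℕ, 0 < k → g ^ k = 1 → g = 1)
    (deg : ι → ℤ) (d s : Matrix ι ι (MonoidAlgebra ℤ Γ)) (hd : IsBd deg d)
    (hs : IsCt deg d s) (hss : s * s = 0) (c : ℝ) (hc0 : 0 < c) (hc : c ^ 2 < 9 / 2)
    (hA : NormLE s c) (e : Ob deg ≃ Eb deg)
    (x : (Matrix (Ob deg) (Ob deg) (MonoidAlgebra ℤ Γ))ˣ)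
    (hx : (x : Matrix (Ob deg) (Ob deg) (MonoidAlgebra ℤ Γ)) = (tor deg d s).submatrix id e) :
    TT (TU Γ) x := by
  classical
  let deg' : ι → ℤ := fun i => -deg i
  have hd' : IsBd deg' s := ⟨fun i j h => by
    have := hs.degree i j h
    change -deg i = -deg j + 1
    omega, hss⟩
  have hs' : IsCt deg' s d := ⟨fun i j h => by
    have := hd.degree i j h
    change -deg j = -deg i + 1
    omega, by rw [add_comm]; exact hs.eq⟩
  let eo : Ob deg' ≃ Ob deg := Equiv.subtypeEquivRight (fun i => by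
    change Odd (-deg i) ↔ Odd (deg i)
    exact odd_neg)
  let ee : Eb deg' ≃ Eb deg := Equiv.subtypeEquivRight (fun i => by
    change Even (-deg i) ↔ Even (deg i)
    exact even_neg)
  let e' : Ob deg' ≃ Eb deg' := (eo.trans e).trans ee.symm
  have h1 : TT (TU Γ) (Units.map (re (R := MonoidAlgebra ℤ Γ) eo) x) := by
    apply TT_complex htf deg' s d hd' hs' c hc0 hc hA e'
    ext1 i j
    change (x : Matrix (Ob deg) (Ob deg) (MonoidAlgebra ℤ Γ)) (eo i) (eo j) = _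
    rw [hx]
    change (d + s) (eo i).1 (e (eo j)).1 = (s + d) i.1 (e' j).1
    rw [add_comm d s]
    rfl
  have h2 := TT_re (TU Γ) eo.symm _ h1
  have h3 : x = Units.map (re (R := MonoidAlgebra ℤ Γ) eo.symm)
      (Units.map (re (R := MonoidAlgebra ℤ Γ) eo) x) := by
    apply Units.ext
    ext1 i j
    change _ = (x : Matrix (Ob deg) (Ob deg) (MonoidAlgebra ℤ Γ)) (eo (eo.symm i)) (eo (eo.symm j))
    rw [Equiv.apply_symm_apply, Equiv.apply_symm_apply]
  rw [h3]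
  exact h2

/-- The matrix of `d + s` from odd to even degrees; its columns are numbered by the basis elements
of odd degree through the bijection `e`. -/
noncomputable def torsionMatrix (deg : ι → ℤ) (d s : Matrix ι ι (MonoidAlgebra ℤ Γ))
    (e : {i // Odd (deg i)} ≃ {i // Even (deg i)}) :
    Matrix {i // Odd (deg i)} {i // Odd (deg i)} (MonoidAlgebra ℤ Γ) :=
  fun i j => (d + s) i.1 (e j).1

theorem main (htf : ∀ g : Γ, ∀ k : ℕ, 0 < k → g ^ k = 1 → g = 1)
    (deg : ι → ℤ) (d : Matrix ι ι (MonoidAlgebra ℤ Γ)) (hd : IsBoundary deg d)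
    (c : ℝ) (hc0 : 0 < c) (hc : c ^ 2 < 9 / 2)
    (hthin : NormLE d c ∨ ∃ t, IsContraction deg d t ∧ t * t = 0 ∧ NormLE t c)
    (s : Matrix ι ι (MonoidAlgebra ℤ Γ)) (hs : IsContraction deg d s) :
    Nonempty ({i // Odd (deg i)} ≃ {i // Even (deg i)}) ∧
    ∀ e : {i // Odd (deg i)} ≃ {i // Even (deg i)},
      ∃ (m : ℕ) (g : Γ) (ε : ℤˣ)
        (C : (Matrix ({i // Odd (deg i)} ⊕ Fin (m + 1)) ({i // Odd (deg i)} ⊕ Fin (m + 1))
          (MonoidAlgebra ℤ Γ))ˣ),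
        C ∈ commutator (Matrix ({i // Odd (deg i)} ⊕ Fin (m + 1))
          ({i // Odd (deg i)} ⊕ Fin (m + 1)) (MonoidAlgebra ℤ Γ))ˣ ∧
        Matrix.fromBlocks (torsionMatrix deg d s e) 0 0
            (1 : Matrix (Fin (m + 1)) (Fin (m + 1)) (MonoidAlgebra ℤ Γ)) =
          Matrix.diagonal (fun i : {i // Odd (deg i)} ⊕ Fin (m + 1) =>
              if i = Sum.inr (0 : Fin (m + 1)) then
                (MonoidAlgebra.single g ((ε : ℤ)) : MonoidAlgebra ℤ Γ) else 1) *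
            (↑C : Matrix ({i // Odd (deg i)} ⊕ Fin (m + 1)) ({i // Odd (deg i)} ⊕ Fin (m + 1))
              (MonoidAlgebra ℤ Γ)) := by
  have hd' : IsBd deg d := ⟨hd.degree, hd.sq⟩
  have hs' : IsCt deg d s := ⟨hs.degree, hs.eq⟩
  refine ⟨card_eq deg d s hd' hs', fun e => ?_⟩
  obtain ⟨x, hx, _⟩ := tor_unit hd' hs' e
  have hTT : TT (TU Γ) x := by
    rcases hthin with hA | ⟨t, ht, htt, hA⟩
    · exact TT_complex htf deg d s hd' hs' c hc0 hc hA e x hx
    · have ht' : IsCt deg d t := ⟨ht.degree, ht.eq⟩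
      obtain ⟨y, hy, _⟩ := tor_unit hd' ht' e
      exact TT_indep (TU Γ) hd' hs' ht' e x y hx hy
        (TT_contraction htf deg d t hd' ht' htt c hc0 hc hA e y hy)
  obtain ⟨m, g, ε, C, hC, h⟩ := TT_explicit x hTT
  refine ⟨m, g, ε, C, hC, ?_⟩
  rw [← h, hx]
  rfl

end TH6.CX
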