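import Pool.Agent.TH6.LF.Blk
import Pool.Agent.TH57.Thr.Blk

set_option autoImplicit false
set_option linter.style.haveILetI false
set_option linter.unusedSectionVars false

/-! Finite complexes of based free modules over an integral group ring, given by one square matrix:
boundary operators of small norm. -/

namespace TH6.CX

open Matrix TH57.Thr TH6.LF

variable {G : Type} [Group G] {ι : Type} [Fintype ι] [DecidableEq ι]

/-- The square matrix `d` is the boundary operator of a complex of based free modules over `ℤG`: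
the basis element `i` has degree `deg i`, its boundary `∑ j, d i j • j` is a combination of basis
elements of degree `deg i - 1`, and `d * d = 0`. -/
structure IsBoundary (deg : ι → ℤ) (d : Matrix ι ι (MonoidAlgebra ℤ G)) : Prop where
  degree : ∀ i j, d i j ≠ 0 → deg i = deg j + 1
  sq : d * d = 0

/-- `s` is a contraction of the complex with boundary operator `d`: it raises degrees by one and
`d * s + s * d = 1`. -/
structure IsContraction (deg : ι → ℤ) (d s : Matrix ι ι (MonoidAlgebra ℤ G)) : Prop where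
  degree : ∀ i j, s i j ≠ 0 → deg j = deg i + 1
  eq : d * s + s * d = 1

section norm

omit [DecidableEq ι]

theorem ip_zero_right (x : ι → MonoidAlgebra ℝ G) : ip x 0 = 0 := by
  rw [ip_comm, ip_zero_left]

theorem NormLE_adj' (d : Matrix ι ι (MonoidAlgebra ℤ G)) (c : ℝ) (hc : 0 < c) (h : NormLE d c) :
    NormLE (adj d) c := by
  intro v
  have hc2 : 0 < c ^ 2 := by positivity
  set E := toReal (adj d) with hE
  have hEd : adj E = toReal d := by rw [hE, toReal_adj, adj_adj]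
  have h1 : ip (v ᵥ* E) (v ᵥ* E) = ip v ((v ᵥ* E) ᵥ* adj E) := ip_vecMul _ _ _
  rw [ip_self] at h1
  have h2 := two_ip_le v ((v ᵥ* E) ᵥ* adj E) (c ^ 2) hc2
  have h3 : normSq ((v ᵥ* E) ᵥ* adj E) ≤ c ^ 2 * normSq (v ᵥ* E) := by
    rw [hEd]; exact h _
  rw [← h1, abs_of_nonneg (normSq_nonneg _)] at h2
  have h4 : (c ^ 2)⁻¹ * normSq ((v ᵥ* E) ᵥ* adj E) ≤ normSq (v ᵥ* E) := by
    calc (c ^ 2)⁻¹ * normSq ((v ᵥ* E) ᵥ* adj E) ≤ (c ^ 2)⁻¹ * (c ^ 2 * normSq (v ᵥ* E)) :=
          mul_le_mul_of_nonneg_left h3 (inv_nonneg.2 hc2.le)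
      _ = normSq (v ᵥ* E) := by field_simp
  linarith

/-- For a boundary operator the norm of `d + d*` is the norm of `d`. -/
theorem norm_sym (d : Matrix ι ι (MonoidAlgebra ℤ G)) (hd : d * d = 0) (c : ℝ) (hc : 0 < c)
    (h : NormLE d c) : NormLE (d + adj d) c := by
  intro x
  have hc2 : 0 < c ^ 2 := by positivity
  have h' := NormLE_adj' d c hc h
  set D := toReal d with hD
  set E := toReal (adj d) with hE
  have hED : E = adj D := by rw [hE, toReal_adj]
  have hadjE : adj E = D := by rw [hED, adj_adj]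
  have hDD : D * D = 0 := by rw [hD, ← toReal_mul, hd, toReal_zero]
  have hEE : E * E = 0 := by rw [hED, ← adj_mul, hDD, adj_zero]
  rw [toReal_add, ← hD, ← hE, Matrix.vecMul_add]
  have o1 : ip (x ᵥ* D) (x ᵥ* E) = 0 := by
    rw [ip_vecMul, ← hED, Matrix.vecMul_vecMul, hEE, Matrix.vecMul_zero, ip_zero_right]
  have e0 : normSq (x ᵥ* D + x ᵥ* E) = normSq (x ᵥ* D) + normSq (x ᵥ* E) := by
    rw [← ip_self, ip_add_left, ip_add_right, ip_add_right, ip_self, ip_self,
      ip_comm (x ᵥ* E), o1]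
    ring
  set y := (x ᵥ* D) ᵥ* E with hy
  set z := (x ᵥ* E) ᵥ* D with hz
  have e1 : normSq (x ᵥ* D) = ip x y := by
    rw [← ip_self, ip_vecMul, ← hED]
  have e2 : normSq (x ᵥ* E) = ip x z := by
    rw [← ip_self, ip_vecMul, hadjE]
  have o2 : ip y z = 0 := by
    rw [hy, ip_vecMul, hadjE, hz, Matrix.vecMul_vecMul _ D D, hDD, Matrix.vecMul_zero,
      ip_zero_right]
  have e3 : normSq (y + z) = normSq y + normSq z := by
    rw [← ip_self, ip_add_left, ip_add_right, ip_add_right, ip_self, ip_self,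
      ip_comm z, o2]
    ring
  have b1 : normSq y ≤ c ^ 2 * normSq (x ᵥ* D) := h' _
  have b2 : normSq z ≤ c ^ 2 * normSq (x ᵥ* E) := h _
  have b3 := two_ip_le x (y + z) (c ^ 2) hc2
  have e4 : ip x (y + z) = normSq (x ᵥ* D) + normSq (x ᵥ* E) := by
    rw [ip_add_right, e1, e2]
  have n1 := normSq_nonneg (x ᵥ* D)
  have n2 := normSq_nonneg (x ᵥ* E)
  rw [e4, abs_of_nonneg (by linarith), e3] at b3
  have b4 : (c ^ 2)⁻¹ * (normSq y + normSq z) ≤ normSq (x ᵥ* D) + normSq (x ᵥ* E) := by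
    calc (c ^ 2)⁻¹ * (normSq y + normSq z)
        ≤ (c ^ 2)⁻¹ * (c ^ 2 * (normSq (x ᵥ* D) + normSq (x ᵥ* E))) :=
          mul_le_mul_of_nonneg_left (by linarith) (inv_nonneg.2 hc2.le)
      _ = normSq (x ᵥ* D) + normSq (x ᵥ* E) := by field_simp
  rw [e0]
  linarith

end norm

theorem coeff_add_adj (d : Matrix ι ι (MonoidAlgebra ℤ G)) (i j : ι) (g : G) :
    ((d + adj d) i j).coeff g = (d i j).coeff g + (d j i).coeff g⁻¹ := by
  rw [Matrix.add_apply, coeff_add', coeff_adj]

theorem sym_add_adj (d : Matrix ι ι (MonoidAlgebra ℤ G)) (i j : ι) (h : G)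
    (hne : ((d + adj d) i j).coeff h ≠ 0) : ((d + adj d) j i).coeff h⁻¹ ≠ 0 := by
  rw [coeff_add_adj] at hne ⊢
  rw [inv_inv]
  rwa [add_comm]

theorem coeff_of_boundary (deg : ι → ℤ) (d : Matrix ι ι (MonoidAlgebra ℤ G))
    (hd : IsBoundary deg d) (i j : ι) (h : G) (hne : (d i j).coeff h ≠ 0) :
    ((d + adj d) i j).coeff h ≠ 0 := by
  have h1 : d j i = 0 := by
    by_contra h2
    have h3 := hd.degree i j (coeff_ne_of hne)
    have h4 := hd.degree j i h2
    omega
  rw [coeff_add_adj, h1]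
  simpa using hne

/-- The structure of complexes with thin boundary operators, torsion-free groups. -/
theorem cx_structure (htf : ∀ g : G, ∀ n : ℕ, 0 < n → g ^ n = 1 → g = 1)
    (deg : ι → ℤ) (d : Matrix ι ι (MonoidAlgebra ℤ G)) (hd : IsBoundary deg d)
    (c : ℝ) (hc0 : 0 < c) (hc : c ^ 2 < 9 / 2) (hA : NormLE d c) :
    ∃ (ρ : ι → ι) (u : ι → G) (C : ι → Subgroup G),
      (∀ b, IsCyclic (C b)) ∧ ∀ i j h, (d i j).coeff h ≠ 0 →
        ρ i = ρ j ∧ u i * h * (u j)⁻¹ ∈ C (ρ i) := by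
  obtain ⟨ρ, u, C, hC, hst⟩ := sym_structure htf (d + adj d) (sym_add_adj d) c hc0 hc
    (norm_sym d hd.sq c hc0 hA)
  exact ⟨ρ, u, C, hC, fun i j h hne => hst i j h (coeff_of_boundary deg d hd i j h hne)⟩

end TH6.CX
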