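import Pool.Agent.TH6.CX.Base

set_option autoImplicit false
set_option linter.style.haveILetI false
set_option linter.unusedSectionVars false

/-! Matrices raising degrees, and unipotent matrices. -/

namespace TH6.CX

open Matrix TH57.Thr

variable {R : Type} [Ring R] {α β γ : Type}

/-- nonzero entries raise the degree by at least `a` -/
def Fil (p : α → ℤ) (q : β → ℤ) (a : ℤ) (M : Matrix α β R) : Prop :=
  ∀ i j, M i j ≠ 0 → p i + a ≤ q j

theorem Fil.mul [Fintype β] {p : α → ℤ} {q : β → ℤ} {r : γ → ℤ} {a b : ℤ} {M : Matrix α β R}
    {N : Matrix β γ R} (hM : Fil p q a M) (hN : Fil q r b N) : Fil p r (a + b) (M * N) := by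
  intro i k h
  rw [Matrix.mul_apply] at h
  obtain ⟨j, _, hj⟩ := Finset.exists_ne_zero_of_sum_ne_zero h
  have h1 : M i j ≠ 0 := fun h => hj (by rw [h, zero_mul])
  have h2 : N j k ≠ 0 := fun h => hj (by rw [h, mul_zero])
  have := hM i j h1
  have := hN j k h2
  omega

theorem Fil.mono {p : α → ℤ} {q : β → ℤ} {a b : ℤ} {M : Matrix α β R} (hM : Fil p q a M)
    (h : b ≤ a) : Fil p q b M := fun i j hij => by
  have := hM i j hij
  omega

theorem Fil.add {p : α → ℤ} {q : β → ℤ} {a : ℤ} {M N : Matrix α β R} (hM : Fil p q a M)
    (hN : Fil p q a N) : Fil p q a (M + N) := by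
  intro i j h
  by_cases h1 : M i j = 0
  · apply hN
    intro h2
    apply h
    rw [Matrix.add_apply, h1, h2, add_zero]
  · exact hM i j h1

theorem Fil.neg {p : α → ℤ} {q : β → ℤ} {a : ℤ} {M : Matrix α β R} (hM : Fil p q a M) :
    Fil p q a (-M) := by
  intro i j h
  apply hM
  intro h2
  apply h
  rw [Matrix.neg_apply, h2, neg_zero]

theorem Fil.sub {p : α → ℤ} {q : β → ℤ} {a : ℤ} {M N : Matrix α β R} (hM : Fil p q a M)
    (hN : Fil p q a N) : Fil p q a (M - N) := by
  rw [sub_eq_add_neg]
  exact hM.add hN.neg

variable [Fintype α] [DecidableEq α]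

theorem Fil.one (p : α → ℤ) : Fil p p 0 (1 : Matrix α α R) := by
  intro i j h
  by_cases h1 : i = j
  · subst h1; omega
  · exact absurd (Matrix.one_apply_ne h1) h

/-- Unipotent matrices are products of elementary matrices. -/
theorem el_of_fil (p : α → ℤ) (M : Matrix α α R) (h : Fil p p 1 (M - 1)) :
    M ∈ El (R := R) α := by
  classical
  let F : Finset α → Matrix α α R := fun S i j => if i ∈ S then M i j else (1 : Matrix α α R) i j
  have h1 : ∀ i j, i ≠ j → M i j ≠ 0 → p i < p j := by
    intro i j hij hM
    have := h i j (by rw [Matrix.sub_apply, Matrix.one_apply_ne hij, sub_zero]; exact hM)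
    omega
  have h2 : ∀ i, M i i = 1 := by
    intro i
    by_contra h3
    have := h i i (by rw [Matrix.sub_apply, Matrix.one_apply_eq]; exact sub_ne_zero.2 h3)
    omega
  have key : ∀ S : Finset α, F S ∈ El (R := R) α := by
    intro S
    induction S using Finset.induction_on_min_value p with
    | empty =>
      have : F ∅ = 1 := by
        ext1 i j
        simp [F]
      rw [this]
      exact one_mem _
    | insert a S ha hmin ih =>
      let Z : Matrix α α R := fun i j => if i = a then (M - 1) a j else 0
      have hZ : 1 + Z ∈ El (R := R) α := by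
        apply el_unip {a}
        intro i j hne
        by_cases hi : i = a
        · refine ⟨Finset.mem_singleton.2 hi, ?_⟩
          rw [Finset.mem_singleton]
          rintro rfl
          apply hne
          simp only [Z, if_pos hi, Matrix.sub_apply, Matrix.one_apply_eq, h2, sub_self]
        · exact absurd (by simp only [Z, if_neg hi]) hne
      have hprod : F S * (1 + Z) = F (insert a S) := by
        rw [Matrix.mul_add, Matrix.mul_one]
        ext1 i j
        rw [Matrix.add_apply, Matrix.mul_apply]
        have e1 : ∑ k, F S i k * Z k j = F S i a * (M - 1) a j := by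
          rw [Finset.sum_eq_single a]
          · simp only [Z, if_true]
          · intro k _ hk
            simp only [Z, if_neg hk, mul_zero]
          · intro h; exact absurd (Finset.mem_univ a) h
        rw [e1]
        by_cases hi : i = a
        · subst hi
          simp only [F, if_neg ha, Matrix.one_apply_eq, one_mul, Finset.mem_insert_self, if_true,
            Matrix.sub_apply]
          abel
        · have e2 : F S i a = 0 := by
            by_cases hiS : i ∈ S
            · simp only [F, if_pos hiS]
              by_contra h3
              have := h1 i a hi h3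
              have := hmin i hiS
              omega
            · simp only [F, if_neg hiS]
              exact Matrix.one_apply_ne hi
          rw [e2, zero_mul, add_zero]
          simp only [F, Finset.mem_insert, hi, false_or]
      rw [← hprod]
      exact mul_mem ih hZ
  have h3 : M = F Finset.univ := by
    ext1 i j
    simp [F]
  rw [h3]
  exact key _

/-- The inverse of a unipotent matrix is unipotent. -/
theorem fil_inv (p : α → ℤ) (M Y : Matrix α α R) (h : Fil p p 1 (M - 1)) (hY : M * Y = 1) :
    Fil p p 1 (Y - 1) := by
  -- `Y i j = 1 i j` when `p j ≤ p i`, by induction on the number of `k` with `p k > p i`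
  have key : ∀ n : ℕ, ∀ i, (Finset.univ.filter fun k => p i < p k).card = n →
      ∀ j, p j ≤ p i → Y i j = (1 : Matrix α α R) i j := by
    intro n
    induction n using Nat.strong_induction_on with
    | _ n ih =>
      intro i hi j hj
      have h1 : Y = 1 - (M - 1) * Y := by
        rw [Matrix.sub_mul, hY, Matrix.one_mul]; abel
      have h2 : Y i j = (1 : Matrix α α R) i j - ((M - 1) * Y) i j := by
        conv_lhs => rw [h1]
        rw [Matrix.sub_apply]
      rw [h2, Matrix.mul_apply, Finset.sum_eq_zero, sub_zero]
      intro k _
      by_cases hk : (M - 1) i k = 0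
      · rw [hk, zero_mul]
      · have h3 := h i k hk
        have h4 : Y k j = 0 := by
          rw [ih (Finset.univ.filter fun l => p k < p l).card ?_ k rfl j (by omega)]
          · apply Matrix.one_apply_ne
            rintro rfl
            omega
          · rw [← hi]
            apply Finset.card_lt_card
            rw [Finset.ssubset_iff_of_subset]
            · exact ⟨k, by simp; omega, by simp⟩
            · intro l hl
              simp only [Finset.mem_filter, Finset.mem_univ, true_and] at hl ⊢
              omega
        rw [h4, mul_zero]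
  intro i j hne
  by_contra hcon
  apply hne
  rw [Matrix.sub_apply, key _ i rfl j (by omega), sub_self]

theorem fil_of_sub_one {p : α → ℤ} {M : Matrix α α R} (h : Fil p p 1 (M - 1)) : Fil p p 0 M := by
  have h1 : M = (M - 1) + 1 := by abel
  rw [h1]
  exact (h.mono (by norm_num)).add (Fil.one p)

/-- a unipotent unit is stably trivial -/
theorem TT_of_fil (U : Subgroup Rˣ) (p : α → ℤ) (x : (Matrix α α R)ˣ)
    (h : Fil p p 1 ((x : Matrix α α R) - 1)) : TT U x :=
  TT_of_El U x (el_of_fil p _ h)

/-- a unipotent matrix is a unit -/
theorem unit_of_fil (p : α → ℤ) (M : Matrix α α R) (h : Fil p p 1 (M - 1)) :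
    ∃ x : (Matrix α α R)ˣ, (x : Matrix α α R) = M := by
  obtain ⟨x, hx, _⟩ := El_unit M (el_of_fil p M h)
  exact ⟨x, hx⟩

end TH6.CX
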