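import Pool.Agent.TH6.PF.OddA

set_option autoImplicit false
set_option linter.unusedSectionVars false
set_option linter.style.haveILetI false

/-! Thin symmetric matrices with an involution of the index set. -/

namespace TH6.CX

open Matrix TH57.Thr TH6.LF TH6.PF Subgroup SimpleGraph

variable {G : Type} [Group G] {κ : Type} (br : κ → κ) (hbr : ∀ i, br (br i) = i)
  (A : Matrix κ κ (MonoidAlgebra ℤ G))
  (hsym : ∀ i j h, (A i j).coeff h ≠ 0 → (A j i).coeff h⁻¹ ≠ 0)
  (hbA : ∀ i j h, (A i j).coeff h ≠ 0 → (A (br i) (br j)).coeff h ≠ 0)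

/-- the involution on vertices -/
def tb (p : G × κ) : G × κ := (p.1, br p.2)

include hbr in
theorem tb_tb (p : G × κ) : tb br (tb br p) = p := by
  simp [tb, hbr]

include hbA in
theorem Rl_tb {p q : G × κ} (h : Rl A p q) : Rl A (tb br p) (tb br q) := by
  have hU : ∀ i j h, (A i j).coeff h ≠ 0 →
      (gr A).Reachable (Sum.inl (1, br i)) (Sum.inr (h, br j)) := by
    intro i j h hne
    apply SimpleGraph.Adj.reachable
    rw [gr_adj]
    simp only [wt]
    simpa using hbA i j h hne
  rcases h with h | h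
  · exact Or.inl (reachable_bv br A hU h)
  · exact Or.inr (reachable_bv br A hU h)

/-- related up to the involution -/
def R3 (p q : G × κ) : Prop := Rl A p q ∨ Rl A p (tb br q)

theorem R3.refl (p : G × κ) : R3 br A p p := Or.inl (Rl.refl A p)

include hbr hsym hbA in
theorem R3.symm {p q : G × κ} (h : R3 br A p q) : R3 br A q p := by
  rcases h with h | h
  · exact Or.inl (Rl.symm A hsym h)
  · right
    have h1 := Rl_tb br A hbA h
    rw [tb_tb br hbr] at h1
    exact Rl.symm A hsym h1

include hbr hsym hbA in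
theorem R3.trans {p q r : G × κ} (h : R3 br A p q) (h' : R3 br A q r) : R3 br A p r := by
  rcases h with h | h <;> rcases h' with h' | h'
  · exact Or.inl (Rl.trans A hsym h h')
  · exact Or.inr (Rl.trans A hsym h h')
  · exact Or.inr (Rl.trans A hsym h (Rl_tb br A hbA h'))
  · left
    have h1 := Rl_tb br A hbA h'
    rw [tb_tb br hbr] at h1
    exact Rl.trans A hsym h h1

theorem R3.mv {p q : G × κ} (g : G) (h : R3 br A p q) :
    R3 br A (g * p.1, p.2) (g * q.1, q.2) := by
  rcases h with h | h
  · exact Or.inl (Rl.mv A g h)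
  · exact Or.inr (Rl.mv A g h)

include hbr in
theorem R3_tb {p q : G × κ} : R3 br A p (tb br q) ↔ R3 br A p q := by
  unfold R3
  rw [tb_tb br hbr]
  exact or_comm

/-- the stabiliser of a class -/
def st3 (i : κ) : Subgroup G where
  carrier := {g | R3 br A (1, i) (g, i)}
  mul_mem' := by
    intro g h hg hh
    have h1 := R3.mv br A g hh
    simp only [mul_one] at h1
    exact R3.trans br hbr A hsym hbA hg h1
  one_mem' := R3.refl br A _
  inv_mem' := by
    intro g hg
    have h1 := R3.mv br A g⁻¹ hg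
    simp only [mul_one, inv_mul_cancel] at h1
    exact R3.symm br hbr A hsym hbA h1

theorem mem_st3 (i : κ) (g : G) : g ∈ st3 br hbr A hsym hbA i ↔ R3 br A (1, i) (g, i) := Iff.rfl

theorem st3_vc [Fintype κ] [DecidableEq κ]
    (c : ℝ) (hc0 : 0 < c) (hc : c ^ 2 < 9 / 2) (hA : NormLE A c) (i : κ) :
    IsVC (st3 br hbr A hsym hbA i) := by
  classical
  have hle : stb A hsym i ≤ st3 br hbr A hsym hbA i := fun g hg => Or.inl hg
  refine isVC_of_relIndex (stb A hsym i) (st3 br hbr A hsym hbA i) hle ?_
    (stb_vc A hsym c hc0 hc hA i)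
  have hfin : ((stb A hsym i).subgroupOf (st3 br hbr A hsym hbA i)).FiniteIndex := by
    have hkey : ∀ s t : st3 br hbr A hsym hbA i, s.1 ∉ stb A hsym i →
        t.1 ∉ stb A hsym i → (s.1)⁻¹ * t.1 ∈ stb A hsym i := by
      have aux : ∀ s : st3 br hbr A hsym hbA i, s.1 ∉ stb A hsym i →
          Rl A (1, i) (tb br (s.1, i)) := by
        intro s hs
        rcases s.2 with h | h
        · exact absurd h hs
        · exact h
      intro s t hs ht
      have h1 := Rl.trans A hsym (Rl.symm A hsym (aux s hs)) (aux t ht)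
      have h2 := Rl_tb br A hbA h1
      rw [tb_tb br hbr, tb_tb br hbr] at h2
      have h3 := Rl.mv A (s.1)⁻¹ h2
      simp only [inv_mul_cancel] at h3
      exact h3
    rw [Subgroup.finiteIndex_iff_finite_quotient]
    refine Finite.of_injective (β := Prop)
      (fun x : (st3 br hbr A hsym hbA i) ⧸
          ((stb A hsym i).subgroupOf (st3 br hbr A hsym hbA i)) =>
        x = QuotientGroup.mk 1) ?_
    intro x y hxy
    induction x using QuotientGroup.induction_on with | H s => ?_
    induction y using QuotientGroup.induction_on with | H t => ?_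
    simp only [eq_iff_iff] at hxy
    rw [eq_comm (a := (QuotientGroup.mk s : _ ⧸ _)),
      eq_comm (a := (QuotientGroup.mk t : _ ⧸ _))] at hxy
    rw [QuotientGroup.eq, QuotientGroup.eq] at hxy
    simp only [inv_one, one_mul, mem_subgroupOf] at hxy
    rw [QuotientGroup.eq, mem_subgroupOf]
    by_cases h : s.1 ∈ stb A hsym i
    · exact mul_mem (inv_mem h) (hxy.1 h)
    · exact hkey s t h (fun h' => h (hxy.2 h'))
  exact hfin.index_ne_zero

/-- The structure theorem for thin symmetric patterns with an involution. -/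
theorem sym_br_structure [Fintype κ] [DecidableEq κ] (br : κ → κ) (hbr : ∀ i, br (br i) = i)
    (A : Matrix κ κ (MonoidAlgebra ℤ G))
    (hsym : ∀ i j h, (A i j).coeff h ≠ 0 → (A j i).coeff h⁻¹ ≠ 0)
    (hbA : ∀ i j h, (A i j).coeff h ≠ 0 → (A (br i) (br j)).coeff h ≠ 0)
    (c : ℝ) (hc0 : 0 < c) (hc : c ^ 2 < 9 / 2) (hA : NormLE A c) :
    ∃ (ρ : κ → κ) (u : κ → G) (C : κ → Subgroup G),
      (∀ b, IsVC (C b)) ∧ (∀ i, ρ (br i) = ρ i) ∧ (∀ i, u (br i) = u i) ∧
      ∀ i j h, (A i j).coeff h ≠ 0 → ρ i = ρ j ∧ u i * h * (u j)⁻¹ ∈ C (ρ i) := by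
  classical
  let st : Setoid κ :=
    { r := fun p q => ∃ g : G, R3 br A (1, p) (g, q)
      iseqv := by
        refine ⟨fun p => ⟨1, R3.refl br A _⟩, ?_, ?_⟩
        · rintro p q ⟨g, hg⟩
          refine ⟨g⁻¹, ?_⟩
          have := R3.mv br A g⁻¹ hg
          simp only [mul_one, inv_mul_cancel] at this
          exact R3.symm br hbr A hsym hbA this
        · rintro p q r ⟨g, hg⟩ ⟨h, hh⟩
          refine ⟨g * h, R3.trans br hbr A hsym hbA hg ?_⟩
          have := R3.mv br A g hh
          simpa only [mul_one] using this }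
  let ρ : κ → κ := fun p => (Quotient.mk st p).out
  have hρ : ∀ p, ∃ g : G, R3 br A (1, ρ p) (g, p) := fun p =>
    Quotient.exact (Quotient.out_eq (Quotient.mk st p))
  have hρbr : ∀ p, ρ (br p) = ρ p := by
    intro p
    have h1 : Quotient.mk st (br p) = Quotient.mk st p := by
      apply Quotient.sound
      refine ⟨1, ?_⟩
      exact R3.symm br hbr A hsym hbA ((R3_tb br hbr A (q := (1, p))).2 (R3.refl br A _))
    simp only [ρ, h1]
  let u : κ → G := fun p => Classical.epsilon fun g => R3 br A (1, ρ p) (g, p)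
  have hu : ∀ p, R3 br A (1, ρ p) (u p, p) := fun p => Classical.epsilon_spec (hρ p)
  have hubr : ∀ p, u (br p) = u p := by
    intro p
    have h1 : (fun g => R3 br A (1, ρ (br p)) (g, br p)) = fun g => R3 br A (1, ρ p) (g, p) := by
      funext g
      rw [hρbr]
      exact propext (R3_tb br hbr A (q := (g, p)))
    simp only [u, h1]
  refine ⟨ρ, u, fun b => st3 br hbr A hsym hbA b,
    fun b => st3_vc br hbr A hsym hbA c hc0 hc hA _, hρbr, hubr, ?_⟩
  intro i j h hne
  have hadj : R3 br A (1, i) (h, j) := by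
    left; right
    apply SimpleGraph.Adj.reachable
    rw [gr_adj]
    simp only [wt]
    simpa using hne
  have heq : ρ i = ρ j := by
    have : Quotient.mk st i = Quotient.mk st j := Quotient.sound ⟨h, hadj⟩
    simp only [ρ, this]
  refine ⟨heq, ?_⟩
  rw [mem_st3]
  have h1 := hu i
  have h2 := R3.mv br A (u i) hadj
  have h3 := hu j
  rw [← heq] at h3
  have h4 := R3.mv br A (u i * h * (u j)⁻¹) h3
  simp only [mul_one, inv_mul_cancel_right] at h2 h4
  exact R3.trans br hbr A hsym hbA (R3.trans br hbr A hsym hbA h1 h2)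
    (R3.symm br hbr A hsym hbA h4)

end TH6.CX
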