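import Pool.Agent.TH6.CX.Quad

set_option autoImplicit false
set_option linter.style.haveILetI false
set_option linter.unusedSectionVars false
set_option linter.unusedVariables false

/-! Quadratic Poincaré complexes with thin cones are sums of complexes over cyclic subgroups. -/

namespace TH6.CX

open Matrix TH57.Thr TH6.LF

variable {G : Type} [Group G] {ι : Type} [Fintype ι] [DecidableEq ι]

section cj

/-- change of basis by group elements -/
noncomputable def cj (u : ι → G) (M : Matrix ι ι (MonoidAlgebra ℤ G)) :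
    Matrix ι ι (MonoidAlgebra ℤ G) := Dm u * M * adj (Dm u)

theorem coeff_cj (u : ι → G) (M : Matrix ι ι (MonoidAlgebra ℤ G)) (i j : ι) (g : G) :
    (cj u M i j).coeff g = (M i j).coeff ((u i)⁻¹ * g * u j) := Dm_mul u M i j g

theorem cj_mul (u : ι → G) (M N : Matrix ι ι (MonoidAlgebra ℤ G)) :
    cj u (M * N) = cj u M * cj u N := by
  unfold cj
  calc Dm u * (M * N) * adj (Dm u) = Dm u * M * 1 * N * adj (Dm u) := by
        rw [Matrix.mul_one]; simp only [Matrix.mul_assoc]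
    _ = _ := by rw [← (Dm_mul_inv u).2]; simp only [Matrix.mul_assoc]

theorem cj_add (u : ι → G) (M N : Matrix ι ι (MonoidAlgebra ℤ G)) :
    cj u (M + N) = cj u M + cj u N := by
  unfold cj
  rw [Matrix.mul_add, Matrix.add_mul]

theorem cj_zsmul (u : ι → G) (z : ℤ) (M : Matrix ι ι (MonoidAlgebra ℤ G)) :
    cj u (z • M) = z • cj u M := by
  unfold cj
  rw [Matrix.mul_smul, Matrix.smul_mul]

theorem cj_zero (u : ι → G) : cj u (0 : Matrix ι ι (MonoidAlgebra ℤ G)) = 0 := by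
  unfold cj
  rw [Matrix.mul_zero, Matrix.zero_mul]

theorem cj_one (u : ι → G) : cj u (1 : Matrix ι ι (MonoidAlgebra ℤ G)) = 1 := by
  unfold cj
  rw [Matrix.mul_one, (Dm_mul_inv u).1]

theorem adj_cj (u : ι → G) (M : Matrix ι ι (MonoidAlgebra ℤ G)) :
    adj (cj u M) = cj u (adj M) := by
  unfold cj
  rw [adj_mul, adj_mul, adj_adj, Matrix.mul_assoc]

theorem cj_ne (u : ι → G) (M : Matrix ι ι (MonoidAlgebra ℤ G)) (i j : ι) (h : cj u M i j ≠ 0) :
    M i j ≠ 0 := by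
  intro h0
  apply h
  ext g
  rw [coeff_cj, h0]
  rfl

/-- integer multiples of the entries -/
noncomputable def sgm (z : ι → ι → ℤ) (M : Matrix ι ι (MonoidAlgebra ℤ G)) :
    Matrix ι ι (MonoidAlgebra ℤ G) := fun i j => z i j • M i j

theorem coeff_sgm (z : ι → ι → ℤ) (M : Matrix ι ι (MonoidAlgebra ℤ G)) (i j : ι) (g : G) :
    (sgm z M i j).coeff g = z i j * (M i j).coeff g := coeff_zsmul' _ _ _

/-- signs commute with the change of basis -/
theorem cj_sgn (u : ι → G) (z : ι → ι → ℤ) (M : Matrix ι ι (MonoidAlgebra ℤ G)) :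
    cj u (sgm z M) = sgm z (cj u M) := by
  ext i j g
  rw [coeff_cj, coeff_sgm, coeff_sgm, coeff_cj]

variable (deg : ι → ℕ)

theorem tw_eq (M : Matrix ι ι (MonoidAlgebra ℤ G)) :
    tw deg M = sgm (fun i j => (-1 : ℤ) ^ (deg i * deg j)) (adj M) := rfl

theorem bdy_eq (d M : Matrix ι ι (MonoidAlgebra ℤ G)) :
    bdy deg d M = M * d + sgm (fun _ j => (-1 : ℤ) ^ deg j) (adj d * M) := rfl

theorem tw_cj (u : ι → G) (M : Matrix ι ι (MonoidAlgebra ℤ G)) :
    tw deg (cj u M) = cj u (tw deg M) := by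
  rw [tw_eq, tw_eq, adj_cj, cj_sgn]

theorem bdy_cj (u : ι → G) (d M : Matrix ι ι (MonoidAlgebra ℤ G)) :
    bdy deg (cj u d) (cj u M) = cj u (bdy deg d M) := by
  rw [bdy_eq, bdy_eq, adj_cj, ← cj_mul, ← cj_mul, cj_add, cj_sgn]

theorem boundary_cj (u : ι → G) {p : ι → ℤ} {d : Matrix ι ι (MonoidAlgebra ℤ G)}
    (hd : IsBoundary p d) : IsBoundary p (cj u d) :=
  ⟨fun i j h => hd.degree i j (cj_ne u d i j h), by rw [← cj_mul, hd.sq, cj_zero]⟩

theorem contraction_cj (u : ι → G) {p : ι → ℤ} {d s : Matrix ι ι (MonoidAlgebra ℤ G)}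
    (hs : IsContraction p d s) : IsContraction p (cj u d) (cj u s) :=
  ⟨fun i j h => hs.degree i j (cj_ne u s i j h), by
    rw [← cj_mul, ← cj_mul, ← cj_add, hs.eq, cj_one]⟩

variable {deg}

theorem quadratic_cj (u : ι → G) {n : ℕ} {d : Matrix ι ι (MonoidAlgebra ℤ G)}
    {ψ : ℕ → Matrix ι ι (MonoidAlgebra ℤ G)} (h : IsQuadratic deg n d ψ) :
    IsQuadratic deg n (cj u d) (fun s => cj u (ψ s)) := by
  refine ⟨boundary_cj u h.boundary, fun s i j hne => h.degree s i j (cj_ne u _ i j hne), ?_⟩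
  intro s
  have h1 := congrArg (cj u) (h.rel s)
  rw [cj_add, cj_zsmul, cj_add, cj_zsmul, ← bdy_cj, ← tw_cj, cj_zero] at h1
  exact h1

end cj

section tct

variable {β : Type} [DecidableEq β] (ρ : ι → β) (C : β → Subgroup G)

theorem coeff_trc (H : Subgroup G) (x : MonoidAlgebra ℤ G) (g : G) [Decidable (g ∈ H)] :
    (trc H x).coeff g = if g ∈ H then x.coeff g else 0 := by
  classical
  have h := coeff_map_comap H x g
  by_cases hg : g ∈ H
  · rw [if_pos hg] at h ⊢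
    exact h
  · rw [if_neg hg] at h ⊢
    exact h

theorem coeff_tct [∀ b, DecidablePred (· ∈ C b)] (M : Matrix ι ι (MonoidAlgebra ℤ G))
    (i j : ι) (g : G) : (tct ρ C M i j).coeff g
      = if ρ i = ρ j ∧ g ∈ C (ρ i) then (M i j).coeff g else 0 := by
  rw [tct_apply]
  by_cases h : ρ i = ρ j
  · rw [if_pos h, coeff_trc]
    simp [h]
  · rw [if_neg h, if_neg (fun h' => h h'.1)]
    rfl

theorem tct_inBlocks (M : Matrix ι ι (MonoidAlgebra ℤ G)) : InBlocks ρ C (tct ρ C M) :=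
  fun i j g h => tct_supp ρ C M i j g h

theorem tct_of_inBlocks (M : Matrix ι ι (MonoidAlgebra ℤ G)) (h : InBlocks ρ C M) :
    tct ρ C M = M := by
  classical
  ext i j g
  rw [coeff_tct]
  split_ifs with h1
  · rfl
  · by_contra h2
    exact h1 (h i j g (Ne.symm h2))

theorem tct_sgn (z : ι → ι → ℤ) (M : Matrix ι ι (MonoidAlgebra ℤ G)) :
    tct ρ C (sgm z M) = sgm z (tct ρ C M) := by
  classical
  ext i j g
  rw [coeff_sgm, coeff_tct, coeff_tct]
  split_ifs
  · exact coeff_sgm _ _ _ _ _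
  · simp

theorem tct_zsmul (z : ℤ) (M : Matrix ι ι (MonoidAlgebra ℤ G)) :
    tct ρ C (z • M) = z • tct ρ C M := tct_sgn ρ C (fun _ _ => z) M

theorem tct_neg (M : Matrix ι ι (MonoidAlgebra ℤ G)) : tct ρ C (-M) = -tct ρ C M := by
  have := tct_zsmul ρ C (-1) M
  simpa using this

theorem tct_sub (M N : Matrix ι ι (MonoidAlgebra ℤ G)) :
    tct ρ C (M - N) = tct ρ C M - tct ρ C N := by
  rw [sub_eq_add_neg, tct_add, tct_neg, ← sub_eq_add_neg]

theorem tct_zero : tct ρ C (0 : Matrix ι ι (MonoidAlgebra ℤ G)) = 0 := by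
  have := tct_zsmul ρ C 0 0
  simpa using this

theorem tct_tct (M : Matrix ι ι (MonoidAlgebra ℤ G)) : tct ρ C (tct ρ C M) = tct ρ C M :=
  tct_of_inBlocks ρ C _ (tct_inBlocks ρ C M)

theorem inBlocks_adj {M : Matrix ι ι (MonoidAlgebra ℤ G)} (h : InBlocks ρ C M) :
    InBlocks ρ C (adj M) := by
  intro i j g hne
  rw [coeff_adj] at hne
  obtain ⟨h1, h2⟩ := h j i _ hne
  refine ⟨h1.symm, ?_⟩
  rw [← h1]
  have := inv_mem h2
  rwa [inv_inv] at this

theorem tct_adj (M : Matrix ι ι (MonoidAlgebra ℤ G)) : tct ρ C (adj M) = adj (tct ρ C M) := by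
  classical
  ext i j g
  rw [coeff_adj, coeff_tct, coeff_tct, coeff_adj]
  by_cases h : ρ i = ρ j
  · by_cases h2 : g ∈ C (ρ i)
    · rw [if_pos ⟨h, h2⟩, if_pos ⟨h.symm, by rw [← h]; exact inv_mem h2⟩]
    · rw [if_neg (fun h' => h2 h'.2), if_neg]
      rintro ⟨_, h3⟩
      apply h2
      rw [h]
      have := inv_mem h3
      rwa [inv_inv] at this
  · rw [if_neg (fun h' => h h'.1), if_neg (fun h' => h h'.1.symm)]

theorem tct_tw (deg : ι → ℕ) (M : Matrix ι ι (MonoidAlgebra ℤ G)) :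
    tct ρ C (tw deg M) = tw deg (tct ρ C M) := by
  rw [tw_eq, tw_eq, tct_sgn, tct_adj]

theorem tct_bdy (deg : ι → ℕ) (d M : Matrix ι ι (MonoidAlgebra ℤ G)) (hd : InBlocks ρ C d) :
    tct ρ C (bdy deg d M) = bdy deg d (tct ρ C M) := by
  rw [bdy_eq, bdy_eq, tct_add, (tct_mul ρ C d M hd).2, tct_sgn,
    (tct_mul ρ C (adj d) M (inBlocks_adj ρ C hd)).1]

theorem tct_ne (M : Matrix ι ι (MonoidAlgebra ℤ G)) (i j : ι) (h : tct ρ C M i j ≠ 0) :
    M i j ≠ 0 := by
  intro h0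
  apply h
  rw [tct_apply, h0, trc_zero, ite_self]

theorem quadratic_tct {deg : ι → ℕ} {n : ℕ} {d : Matrix ι ι (MonoidAlgebra ℤ G)}
    {ψ : ℕ → Matrix ι ι (MonoidAlgebra ℤ G)} (h : IsQuadratic deg n d ψ) (hd : InBlocks ρ C d) :
    IsQuadratic deg n d (fun s => tct ρ C (ψ s)) := by
  refine ⟨h.boundary, fun s i j hne => h.degree s i j (tct_ne ρ C _ i j hne), ?_⟩
  intro s
  have h1 := congrArg (tct ρ C) (h.rel s)
  rw [tct_add, tct_zsmul, tct_add, tct_zsmul, tct_bdy ρ C deg d _ hd, tct_tw, tct_zero] at h1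
  exact h1

end tct

section half

/-- one half of a matrix -/
noncomputable def half (M : Matrix ι ι (MonoidAlgebra ℤ G)) : Matrix ι ι (MonoidAlgebra ℤ G) := by
  classical
  exact fun i j =>
    .ofCoeff ((M i j).coeff.filter (fun g => WellOrderingRel (i, j, g) (j, i, g⁻¹)))

open Classical in
theorem coeff_half (M : Matrix ι ι (MonoidAlgebra ℤ G)) (i j : ι) (g : G) :
    (half M i j).coeff g
      = if WellOrderingRel (i, j, g) (j, i, g⁻¹) then (M i j).coeff g else 0 := by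
  unfold half
  simp only [Finsupp.filter_apply]

theorem half_ne (M : Matrix ι ι (MonoidAlgebra ℤ G)) (i j : ι) (h : half M i j ≠ 0) :
    M i j ≠ 0 := by
  classical
  intro h0
  apply h
  ext g
  rw [coeff_half, h0]
  simp

theorem half_spec (hno : ∀ g : G, g = g⁻¹ → g = 1) (deg : ι → ℕ) (k : ℕ)
    (y : Matrix ι ι (MonoidAlgebra ℤ G)) (h1 : y + (-1 : ℤ) ^ k • tw deg y = 0)
    (h2 : ∀ i, (y i i).coeff 1 = 0) :
    y = half y + (-1 : ℤ) ^ (k + 1) • tw deg (half y) := by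
  classical
  ext i j g
  have h3 : (y i j).coeff g + (-1 : ℤ) ^ k * ((-1 : ℤ) ^ (deg i * deg j) * (y j i).coeff g⁻¹)
      = 0 := by
    have h4 := congrArg (fun M : Matrix ι ι (MonoidAlgebra ℤ G) => (M i j).coeff g) h1
    simp only [Matrix.add_apply, Matrix.smul_apply, tw, Matrix.zero_apply] at h4
    rw [coeff_add', coeff_zsmul', coeff_zsmul', coeff_bar] at h4
    exact h4
  rw [Matrix.add_apply, coeff_add', Matrix.smul_apply, coeff_zsmul']
  change _ = _ + (-1 : ℤ) ^ (k + 1) * ((-1 : ℤ) ^ (deg i * deg j) • bar (half y j i)).coeff g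
  rw [coeff_zsmul', coeff_bar, coeff_half, coeff_half, inv_inv]
  rcases trichotomous_of WellOrderingRel (i, j, g) (j, i, g⁻¹) with h | h | h
  · have h' : ¬ WellOrderingRel (j, i, g⁻¹) (i, j, g) :=
      fun h'' => asymm_of WellOrderingRel h h''
    rw [if_pos h, if_neg h']
    ring
  · simp only [Prod.mk.injEq] at h
    obtain ⟨rfl, _, h4⟩ := h
    have h5 := hno g h4
    subst h5
    rw [inv_one, h2]
    simp
  · have h' : ¬ WellOrderingRel (i, j, g) (j, i, g⁻¹) :=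
      fun h'' => asymm_of WellOrderingRel h h''
    rw [if_neg h', if_pos h, pow_succ]
    linarith

theorem tct_half {β : Type} [DecidableEq β] (ρ : ι → β) (C : β → Subgroup G)
    (y : Matrix ι ι (MonoidAlgebra ℤ G)) (h : tct ρ C y = 0) : tct ρ C (half y) = 0 := by
  classical
  ext i j g
  have h1 : (tct ρ C y i j).coeff g = 0 := by rw [h]; rfl
  rw [coeff_tct] at h1 ⊢
  split_ifs with h2
  · rw [if_pos h2] at h1
    rw [coeff_half, h1]
    simp
  · rfl

/-- the null-homotopy -/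
noncomputable def chi (deg : ι → ℕ) (n : ℕ) (d : Matrix ι ι (MonoidAlgebra ℤ G))
    (δ : ℕ → Matrix ι ι (MonoidAlgebra ℤ G)) : ℕ → Matrix ι ι (MonoidAlgebra ℤ G)
  | 0 => 0
  | s + 1 => (-1 : ℤ) ^ (n + s) • half (δ s - bdy deg d (chi deg n d δ s))

theorem chi_degree (deg : ι → ℕ) (n : ℕ) (d : Matrix ι ι (MonoidAlgebra ℤ G))
    (hd : IsBoundary (fun i => (deg i : ℤ)) d)
    (δ : ℕ → Matrix ι ι (MonoidAlgebra ℤ G)) (hδ : ∀ s i j, δ s i j ≠ 0 → deg i + deg j + s = n)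
    (s : ℕ) : ∀ i j, chi deg n d δ s i j ≠ 0 → deg i + deg j + s = n + 1 := by
  induction s with
  | zero => intro i j h; exact absurd rfl h
  | succ s ih =>
    intro i j h
    have h1 : half (δ s - bdy deg d (chi deg n d δ s)) i j ≠ 0 := by
      intro h0
      apply h
      change (-1 : ℤ) ^ (n + s) • half (δ s - bdy deg d (chi deg n d δ s)) i j = 0
      rw [h0, smul_zero]
    have h2 := half_ne _ i j h1
    rw [Matrix.sub_apply] at h2
    by_cases h3 : δ s i j = 0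
    · rw [h3, zero_sub] at h2
      have h4 : bdy deg d (chi deg n d δ s) i j ≠ 0 := fun h0 => h2 (by rw [h0, neg_zero])
      change (chi deg n d δ s * d) i j
        + (-1 : ℤ) ^ deg j • (adj d * chi deg n d δ s) i j ≠ 0 at h4
      by_cases h5 : (chi deg n d δ s * d) i j = 0
      · rw [h5, zero_add] at h4
        have h6 : (adj d * chi deg n d δ s) i j ≠ 0 := fun h0 => h4 (by rw [h0, smul_zero])
        rw [Matrix.mul_apply] at h6
        obtain ⟨k, _, hk⟩ := Finset.exists_ne_zero_of_sum_ne_zero h6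
        have h7 : chi deg n d δ s k j ≠ 0 := fun h0 => hk (by rw [h0, mul_zero])
        have h8 : d k i ≠ 0 := fun h0 => hk (by rw [adj_apply, h0, bar_zero, zero_mul])
        have h9 := ih k j h7
        have h10 : (deg k : ℤ) = deg i + 1 := hd.degree k i h8
        omega
      · rw [Matrix.mul_apply] at h5
        obtain ⟨k, _, hk⟩ := Finset.exists_ne_zero_of_sum_ne_zero h5
        have h7 : chi deg n d δ s i k ≠ 0 := fun h0 => hk (by rw [h0, zero_mul])
        have h8 : d k j ≠ 0 := fun h0 => hk (by rw [h0, mul_zero])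
        have h9 := ih i k h7
        have h10 : (deg k : ℤ) = deg j + 1 := hd.degree k j h8
        omega
    · have := hδ s i j h3
      omega

/-- Quadratic structures without block part whose duality map vanishes are boundaries. -/
theorem chi_spec {β : Type} [DecidableEq β] (ρ : ι → β) (C : β → Subgroup G)
    (hno : ∀ g : G, g = g⁻¹ → g = 1) (deg : ι → ℕ) (n : ℕ)
    (d : Matrix ι ι (MonoidAlgebra ℤ G)) (δ : ℕ → Matrix ι ι (MonoidAlgebra ℤ G))
    (h : IsQuadratic deg n d δ) (hd : InBlocks ρ C d) (hδ : ∀ s, tct ρ C (δ s) = 0)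
    (h0 : δ 0 + tw deg (δ 0) = 0) (s : ℕ) :
    δ s = qbd deg n d (chi deg n d δ) s := by
  set χ := chi deg n d δ with hχ
  have hχs : ∀ s, χ (s + 1) = (-1 : ℤ) ^ (n + s) • half (δ s - bdy deg d (χ s)) := fun s => rfl
  -- the two invariants
  have key : ∀ s, tct ρ C (χ s) = 0 ∧
      (δ s - bdy deg d (χ s)) + (-1 : ℤ) ^ s • tw deg (δ s - bdy deg d (χ s)) = 0 := by
    intro s
    have off : ∀ s, tct ρ C (χ s) = 0 → ∀ i, ((δ s - bdy deg d (χ s)) i i).coeff 1 = 0 := by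
      classical
      intro s hs i
      have h1 : tct ρ C (δ s - bdy deg d (χ s)) = 0 := by
        rw [tct_sub, hδ, tct_bdy ρ C deg d _ hd, hs, bdy_zero, sub_zero]
      have h2 : (tct ρ C (δ s - bdy deg d (χ s)) i i).coeff 1 = 0 := by rw [h1]; rfl
      rw [coeff_tct, if_pos ⟨rfl, one_mem _⟩] at h2
      exact h2
    induction s with
    | zero =>
      refine ⟨tct_zero ρ C, ?_⟩
      have : χ 0 = 0 := rfl
      rw [this, bdy_zero, sub_zero, pow_zero, one_smul]
      exact h0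
    | succ s ih =>
      obtain ⟨i1, i2⟩ := ih
      set y := δ s - bdy deg d (χ s) with hy
      have h1 : tct ρ C y = 0 := by
        rw [hy, tct_sub, hδ, tct_bdy ρ C deg d _ hd, i1, bdy_zero, sub_zero]
      have h2 := half_spec hno deg s y i2 (off s i1)
      have h3 : χ (s + 1) = (-1 : ℤ) ^ (n + s) • half y := hχs s
      refine ⟨by rw [h3, tct_zsmul, tct_half ρ C y h1, smul_zero], ?_⟩
      -- the relation of `δ`
      have h4 := h.rel s
      have h5 : δ (s + 1) + (-1 : ℤ) ^ (s + 1) • tw deg (δ (s + 1))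
          = (-1 : ℤ) ^ (n + s) • bdy deg d (δ s) := by
        have h6 : (-1 : ℤ) ^ (n + s + 1) • (δ (s + 1) + (-1 : ℤ) ^ (s + 1) • tw deg (δ (s + 1)))
            = -bdy deg d (δ s) := eq_neg_of_add_eq_zero_right h4
        have h7 : (-1 : ℤ) ^ (n + s + 1) • ((-1 : ℤ) ^ (n + s + 1) •
            (δ (s + 1) + (-1 : ℤ) ^ (s + 1) • tw deg (δ (s + 1))))
            = (-1 : ℤ) ^ (n + s + 1) • -bdy deg d (δ s) := by rw [h6]
        rw [smul_smul, neg_one_sq, one_smul] at h7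
        rw [h7, pow_succ]
        simp
      have h8 : bdy deg d y = bdy deg d (δ s) := by
        rw [hy, bdy_sub, bdy_bdy deg h.boundary, sub_zero]
      have h9 : bdy deg d (χ (s + 1)) + (-1 : ℤ) ^ (s + 1) • tw deg (bdy deg d (χ (s + 1)))
          = (-1 : ℤ) ^ (n + s) • bdy deg d y := by
        rw [tw_bdy deg h.boundary, ← bdy_zsmul, ← bdy_add, h3, tw_zsmul]
        conv_rhs => rw [h2]
        rw [← bdy_zsmul, smul_add]
        congr 2
        rw [smul_comm]
      rw [tw_sub, smul_sub]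
      have h10 : ∀ a b c e : Matrix ι ι (MonoidAlgebra ℤ G),
          a - b + (c - e) = (a + c) - (b + e) := fun a b c e => by abel
      rw [h10, h5, h9, h8, sub_self]
  have hs := key s
  have off : ∀ i, ((δ s - bdy deg d (χ s)) i i).coeff 1 = 0 := by
    classical
    intro i
    have h1 : tct ρ C (δ s - bdy deg d (χ s)) = 0 := by
      rw [tct_sub, hδ, tct_bdy ρ C deg d _ hd, hs.1, bdy_zero, sub_zero]
    have h2 : (tct ρ C (δ s - bdy deg d (χ s)) i i).coeff 1 = 0 := by rw [h1]; rfl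
    rw [coeff_tct, if_pos ⟨rfl, one_mem _⟩] at h2
    exact h2
  have h2 := half_spec hno deg s _ hs.2 off
  rw [qbd, hχs]
  rw [tw_zsmul, smul_comm ((-1 : ℤ) ^ (s + 1)), ← smul_add, smul_smul, neg_one_sq, one_smul,
    ← h2]
  abel

end half

section main

theorem quadratic_sub {deg : ι → ℕ} {n : ℕ} {d : Matrix ι ι (MonoidAlgebra ℤ G)}
    {ψ φ : ℕ → Matrix ι ι (MonoidAlgebra ℤ G)} (h : IsQuadratic deg n d ψ)
    (h' : IsQuadratic deg n d φ) : IsQuadratic deg n d (fun s => ψ s - φ s) := by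
  refine ⟨h.boundary, fun s i j hne => ?_, fun s => ?_⟩
  · rw [Matrix.sub_apply] at hne
    by_cases h1 : ψ s i j = 0
    · apply h'.degree s i j
      intro h2
      apply hne
      rw [h1, h2, sub_zero]
    · exact h.degree s i j h1
  · have h1 := h.rel s
    have h2 := h'.rel s
    rw [bdy_sub, tw_sub]
    have h3 : bdy deg d (ψ s) - bdy deg d (φ s) + (-1 : ℤ) ^ (n + s + 1) •
        (ψ (s + 1) - φ (s + 1) + (-1 : ℤ) ^ (s + 1) • (tw deg (ψ (s + 1)) - tw deg (φ (s + 1))))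
        = (bdy deg d (ψ s) + (-1 : ℤ) ^ (n + s + 1) •
          (ψ (s + 1) + (-1 : ℤ) ^ (s + 1) • tw deg (ψ (s + 1))))
        - (bdy deg d (φ s) + (-1 : ℤ) ^ (n + s + 1) •
          (φ (s + 1) + (-1 : ℤ) ^ (s + 1) • tw deg (φ (s + 1)))) := by
      simp only [smul_sub, smul_add]
      abel
    rw [h3, h1, h2, sub_zero]

theorem cone_swap {deg : ι → ℕ} {n : ℕ} {d : Matrix ι ι (MonoidAlgebra ℤ G)}
    {ψ : ℕ → Matrix ι ι (MonoidAlgebra ℤ G)} (h : IsQuadratic deg n d ψ) (p q : ι ⊕ ι) (g : G)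
    (hne : ((cone deg n d ψ + adj (cone deg n d ψ)) p q).coeff g ≠ 0) :
    ((cone deg n d ψ + adj (cone deg n d ψ)) p.swap q.swap).coeff g ≠ 0 := by
  have hz : ∀ i j, d i j = 0 ∨ d j i = 0 := by
    intro i j
    by_contra hcon
    rw [not_or] at hcon
    have h1 : (deg i : ℤ) = deg j + 1 := h.boundary.degree i j hcon.1
    have h2 : (deg j : ℤ) = deg i + 1 := h.boundary.degree j i hcon.2
    omega
  have hunit : ∀ k : ℕ, (-1 : ℤ) ^ k ≠ 0 := fun k => pow_ne_zero _ (by norm_num)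
  have e1 : ∀ i j g, (cone deg n d ψ (Sum.inl i) (Sum.inl j)).coeff g = (d i j).coeff g :=
    fun i j g => rfl
  have e2 : ∀ i j g, (cone deg n d ψ (Sum.inl i) (Sum.inr j)).coeff g = 0 := fun i j g => rfl
  have e3 : ∀ i j g, (cone deg n d ψ (Sum.inr i) (Sum.inl j)).coeff g
      = ((ψ 0 + tw deg (ψ 0)) i j).coeff g := fun i j g => rfl
  have e4 : ∀ i j g, (cone deg n d ψ (Sum.inr i) (Sum.inr j)).coeff g
      = (-1 : ℤ) ^ (n + deg j) * (d j i).coeff g⁻¹ := by
    intro i j g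
    change ((-1 : ℤ) ^ (n + deg j) • bar (d j i)).coeff g = _
    rw [coeff_zsmul', coeff_bar]
  have e5 : ∀ i j g, ((ψ 0 + tw deg (ψ 0)) i j).coeff g
      = (-1 : ℤ) ^ (deg i * deg j) * ((ψ 0 + tw deg (ψ 0)) j i).coeff g⁻¹ := by
    intro i j g
    conv_lhs => rw [← phi_tw deg (ψ 0)]
    change ((-1 : ℤ) ^ (deg i * deg j) • bar ((ψ 0 + tw deg (ψ 0)) j i)).coeff g = _
    rw [coeff_zsmul', coeff_bar]
  rw [coeff_add_adj] at hne ⊢
  rcases p with i | i <;> rcases q with j | j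
  · rw [e1, e1] at hne
    rw [Sum.swap_inl, Sum.swap_inl, e4, e4, inv_inv]
    rcases hz i j with h1 | h1
    · rw [h1] at hne ⊢
      simp only [MonoidAlgebra.coeff_zero, Finsupp.coe_zero, Pi.zero_apply, zero_add,
        mul_zero, add_zero] at hne ⊢
      exact mul_ne_zero (hunit _) hne
    · rw [h1] at hne ⊢
      simp only [MonoidAlgebra.coeff_zero, Finsupp.coe_zero, Pi.zero_apply, zero_add,
        mul_zero, add_zero] at hne ⊢
      exact mul_ne_zero (hunit _) hne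
  · rw [e2, e3, zero_add] at hne
    rw [Sum.swap_inl, Sum.swap_inr, e2, e3, add_zero, e5]
    exact mul_ne_zero (hunit _) hne
  · rw [e2, e3, add_zero, e5] at hne
    rw [Sum.swap_inl, Sum.swap_inr, e2, e3, zero_add]
    exact right_ne_zero_of_mul hne
  · rw [e4, e4, inv_inv] at hne
    rw [Sum.swap_inr, Sum.swap_inr, e1, e1]
    rcases hz i j with h1 | h1
    · rw [h1] at hne ⊢
      simp only [MonoidAlgebra.coeff_zero, Finsupp.coe_zero, Pi.zero_apply, zero_add,
        mul_zero, add_zero] at hne ⊢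
      exact right_ne_zero_of_mul hne
    · rw [h1] at hne ⊢
      simp only [MonoidAlgebra.coeff_zero, Finsupp.coe_zero, Pi.zero_apply, zero_add,
        mul_zero, add_zero] at hne ⊢
      exact right_ne_zero_of_mul hne

/-- **Quadratic Poincaré complexes with thin cones.** -/
theorem q_main {deg : ι → ℕ} {n : ℕ} {d : Matrix ι ι (MonoidAlgebra ℤ G)}
    {ψ : ℕ → Matrix ι ι (MonoidAlgebra ℤ G)} (hno : ∀ g : G, g = g⁻¹ → g = 1)
    (h : IsQuadratic deg n d ψ)
    (s₀ : Matrix (ι ⊕ ι) (ι ⊕ ι) (MonoidAlgebra ℤ G))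
    (hs₀ : IsContraction (coneDeg deg n) (cone deg n d ψ) s₀)
    (c : ℝ) (hc0 : 0 < c) (hc : c ^ 2 < 9 / 2) (hthin : NormLE (cone deg n d ψ) c) :
    ∃ (ρ : ι → ι ⊕ ι) (u : ι → G) (C : ι ⊕ ι → Subgroup G)
      (ψ' χ : ℕ → Matrix ι ι (MonoidAlgebra ℤ G))
      (s : Matrix (ι ⊕ ι) (ι ⊕ ι) (MonoidAlgebra ℤ G)),
      (∀ b, TH6.PF.IsVC (C b)) ∧
      InBlocks ρ C (cj u d) ∧ (∀ k, InBlocks ρ C (ψ' k)) ∧
      IsQuadratic deg n (cj u d) ψ' ∧
      IsContraction (coneDeg deg n) (cone deg n (cj u d) ψ') s ∧ InBlocks (Sum.elim ρ ρ) C s ∧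
      (∀ k i j, χ k i j ≠ 0 → deg i + deg j + k = n + 1) ∧
      ∀ k, cj u (ψ k) = ψ' k + qbd deg n (cj u d) χ k := by
  classical
  set K := cone deg n d ψ with hK
  have hKb := cone_boundary h
  rw [← hK] at hKb
  obtain ⟨ρ₀, u₀, C, hC, hρ, hu, hst⟩ := sym_br_structure (Sum.swap : ι ⊕ ι → ι ⊕ ι)
    Sum.swap_swap (K + adj K) (sym_add_adj K) (cone_swap h) c hc0 hc
    (norm_sym K hKb.sq c hc0 hthin)
  let ρ : ι → ι ⊕ ι := fun i => ρ₀ (Sum.inl i)
  let u : ι → G := fun i => u₀ (Sum.inl i)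
  have hρr : ∀ i, ρ₀ (Sum.inr i) = ρ i := fun i => hρ (Sum.inl i)
  have hur : ∀ i, u₀ (Sum.inr i) = u i := fun i => hu (Sum.inl i)
  have hKc : ∀ p q g, (K p q).coeff g ≠ 0 → ρ₀ p = ρ₀ q ∧ u₀ p * g * (u₀ q)⁻¹ ∈ C (ρ₀ p) :=
    fun p q g hne => hst p q g (coeff_of_boundary (coneDeg deg n) K hKb p q g hne)
  set Φ := ψ 0 + tw deg (ψ 0) with hΦ
  have hgrp : ∀ (a b g : G), a * (a⁻¹ * g * b) * b⁻¹ = g := fun a b g => by group
  have hdB : InBlocks ρ C (cj u d) := by
    intro i j g hne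
    rw [coeff_cj] at hne
    have h1 := hKc (Sum.inl i) (Sum.inl j) _ hne
    exact ⟨h1.1, by have := h1.2; rwa [hgrp] at this⟩
  have hΦB : InBlocks ρ C (cj u Φ) := by
    intro i j g hne
    rw [coeff_cj] at hne
    have h1 := hKc (Sum.inr i) (Sum.inl j) _ hne
    rw [hρr, hur] at h1
    exact ⟨h1.1, by have := h1.2; rwa [hgrp] at this⟩
  have hQ1 := quadratic_cj u h
  have hQ2 := quadratic_tct ρ C hQ1 hdB
  have hQ3 := quadratic_sub hQ1 hQ2
  set ψ' : ℕ → Matrix ι ι (MonoidAlgebra ℤ G) := fun k => tct ρ C (cj u (ψ k)) with hψ'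
  set δ : ℕ → Matrix ι ι (MonoidAlgebra ℤ G) := fun k => cj u (ψ k) - ψ' k with hδ
  have hΦ' : ψ' 0 + tw deg (ψ' 0) = cj u Φ := by
    rw [← tct_of_inBlocks ρ C _ hΦB, hΦ, cj_add, tct_add, ← tw_cj, tct_tw]
  have hδ0 : δ 0 + tw deg (δ 0) = 0 := by
    change (cj u (ψ 0) - ψ' 0) + tw deg (cj u (ψ 0) - ψ' 0) = 0
    rw [tw_sub, tw_cj]
    have : cj u (ψ 0) - ψ' 0 + (cj u (tw deg (ψ 0)) - tw deg (ψ' 0))
        = cj u (ψ 0 + tw deg (ψ 0)) - (ψ' 0 + tw deg (ψ' 0)) := by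
      rw [cj_add]; abel
    rw [this, hΦ', hΦ, sub_self]
  have hδt : ∀ k, tct ρ C (δ k) = 0 := by
    intro k
    change tct ρ C (cj u (ψ k) - tct ρ C (cj u (ψ k))) = 0
    rw [tct_sub, tct_tct, sub_self]
  have hχ := chi_spec ρ C hno deg n (cj u d) δ hQ3 hdB hδt hδ0
  -- the cone
  let U : ι ⊕ ι → G := Sum.elim u u
  have hcone : cone deg n (cj u d) ψ' = cj U K := by
    ext p q g
    rw [coeff_cj]
    rcases p with i | i <;> rcases q with j | j
    · exact coeff_cj u d i j g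
    · rfl
    · change ((ψ' 0 + tw deg (ψ' 0)) i j).coeff g = _
      rw [hΦ']
      exact coeff_cj u Φ i j g
    · change ((-1 : ℤ) ^ (n + deg j) • adj (cj u d) i j).coeff g
        = ((-1 : ℤ) ^ (n + deg j) • adj d i j).coeff ((u i)⁻¹ * g * u j)
      rw [adj_cj, coeff_zsmul', coeff_zsmul', coeff_cj]
  have hKB : InBlocks (Sum.elim ρ ρ) C (cj U K) := by
    intro p q g hne
    rw [coeff_cj] at hne
    have h1 := hKc p q _ hne
    rcases p with i | i <;> rcases q with j | j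
    · exact ⟨h1.1, by have := h1.2; rwa [show U (Sum.inl i) = u₀ (Sum.inl i) from rfl,
        show U (Sum.inl j) = u₀ (Sum.inl j) from rfl, hgrp] at this⟩
    · exact absurd rfl hne
    · rw [hρr, hur] at h1
      exact ⟨h1.1, by have := h1.2; rwa [show U (Sum.inr i) = u i from rfl,
        show U (Sum.inl j) = u₀ (Sum.inl j) from rfl, hgrp] at this⟩
    · rw [hρr, hρr, hur, hur] at h1
      exact ⟨h1.1, by have := h1.2; rwa [show U (Sum.inr i) = u i from rfl,
        show U (Sum.inr j) = u j from rfl, hgrp] at this⟩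
  have hct := contraction_cj U hs₀
  have hct' : IsCt (coneDeg deg n) (cj U K) (cj U s₀) := ⟨hct.degree, hct.eq⟩
  have hct2 := tct_ct (coneDeg deg n) (Sum.elim ρ ρ) C (cj U K) (cj U s₀) hct' hKB
  refine ⟨ρ, u, C, ψ', chi deg n (cj u d) δ, tct (Sum.elim ρ ρ) C (cj U s₀), hC, hdB,
    fun k => tct_inBlocks ρ C _, hQ2, ?_, tct_inBlocks _ _ _,
    fun k => chi_degree deg n (cj u d) hQ3.boundary δ hQ3.degree k, ?_⟩
  · rw [hcone]
    exact ⟨hct2.degree, hct2.eq⟩
  · intro k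
    rw [← hχ k]
    change cj u (ψ k) = ψ' k + (cj u (ψ k) - ψ' k)
    abel

end main

end TH6.CX
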