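import Pool.Agent.TH6.CX.Fil
import Pool.Agent.TH6.PF.PBelow

set_option autoImplicit false
set_option linter.style.haveILetI false
set_option linter.unusedSectionVars false

/-! The torsion of a contractible complex does not depend on the contraction. -/

namespace TH6.CX

open Matrix TH57.Thr TH6.LF

section gen

variable {R : Type} [Ring R] {ι : Type} [Fintype ι] [DecidableEq ι]

theorem sub_mul {α γ : Type} (P : ι → Prop) [DecidablePred P] (a : α → ι) (b : γ → ι)
    (A B : Matrix ι ι R) (hA : ∀ x j, A (a x) j ≠ 0 → P j) :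
    (A * B).submatrix a b
      = A.submatrix a (Subtype.val : {j // P j} → ι) * B.submatrix Subtype.val b := by
  ext1 x y
  rw [Matrix.submatrix_apply, Matrix.mul_apply, ← Fintype.sum_subtype_add_sum_subtype P]
  have h : ∑ j : {j // ¬ P j}, A (a x) j.1 * B j.1 (b y) = 0 := by
    refine Finset.sum_eq_zero fun j _ => ?_
    by_cases h3 : A (a x) j.1 = 0
    · rw [h3, zero_mul]
    · exact absurd (hA _ _ h3) j.2
  rw [h, add_zero]
  rfl

/-- rows of odd degree -/
abbrev Ob (deg : ι → ℤ) : Type := {i // Odd (deg i)}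

/-- columns of even degree -/
abbrev Eb (deg : ι → ℤ) : Type := {i // Even (deg i)}

/-- boundary operator of a complex over a ring -/
structure IsBd (deg : ι → ℤ) (d : Matrix ι ι R) : Prop where
  degree : ∀ i j, d i j ≠ 0 → deg i = deg j + 1
  sq : d * d = 0

/-- contraction of a complex over a ring -/
structure IsCt (deg : ι → ℤ) (d s : Matrix ι ι R) : Prop where
  degree : ∀ i j, s i j ≠ 0 → deg j = deg i + 1
  eq : d * s + s * d = 1

theorem IsBd.fil {deg : ι → ℤ} {d : Matrix ι ι R} (h : IsBd deg d) : Fil deg deg (-1) d :=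
  fun i j hij => by have := h.degree i j hij; omega

theorem IsCt.fil {deg : ι → ℤ} {d s : Matrix ι ι R} (h : IsCt deg d s) : Fil deg deg 1 s :=
  fun i j hij => by have := h.degree i j hij; omega

/-- nonzero entries change the parity of the degree -/
theorem odd_of {deg : ι → ℤ} {d s : Matrix ι ι R} (hd : IsBd deg d) (hs : IsCt deg d s)
    {i j : ι} (h : (d + s) i j ≠ 0) : Odd (deg i) ↔ Even (deg j) := by
  by_cases h1 : d i j = 0
  · have h2 : s i j ≠ 0 := by
      intro h2; apply h; rw [Matrix.add_apply, h1, h2, add_zero]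
    have := hs.degree i j h2
    rw [this]
    rw [Int.even_add_one, Int.not_even_iff_odd]
  · have := hd.degree i j h1
    rw [this]
    rw [← Int.not_even_iff_odd, Int.even_add_one, not_not]

variable (deg : ι → ℤ)

/-- The matrix of `d + s` from odd to even degrees. -/
def tor (d s : Matrix ι ι R) : Matrix (Ob deg) (Eb deg) R :=
  (d + s).submatrix Subtype.val Subtype.val

/-- The matrix of `d + s` from even to odd degrees. -/
def rot (d s : Matrix ι ι R) : Matrix (Eb deg) (Ob deg) R :=
  (d + s).submatrix Subtype.val Subtype.val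

variable {deg}

theorem sq_eq {d s : Matrix ι ι R} (hd : IsBd deg d) (hs : IsCt deg d s) :
    (d + s) * (d + s) = 1 + s * s := by
  rw [Matrix.add_mul, Matrix.mul_add, Matrix.mul_add, hd.sq, zero_add, ← add_assoc, hs.eq]

theorem tor_rot {d s : Matrix ι ι R} (hd : IsBd deg d) (hs : IsCt deg d s) :
    tor deg d s * rot deg d s
      = (1 + s * s).submatrix (Subtype.val : Ob deg → ι) (Subtype.val : Ob deg → ι) := by
  rw [← sq_eq hd hs, sub_mul (fun j => Even (deg j)) _ _ _ _ (fun x j h =>
    (odd_of hd hs h).1 x.2)]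
  rfl

theorem rot_tor {d s : Matrix ι ι R} (hd : IsBd deg d) (hs : IsCt deg d s) :
    rot deg d s * tor deg d s
      = (1 + s * s).submatrix (Subtype.val : Eb deg → ι) (Subtype.val : Eb deg → ι) := by
  rw [← sq_eq hd hs, sub_mul (fun j => Odd (deg j)) _ _ _ _ (fun x j h => by
    by_contra hcon
    rw [Int.not_odd_iff_even] at hcon
    exact Int.not_even_iff_odd.2 ((odd_of hd hs h).2 hcon) x.2)]
  rfl

theorem fil_sub {α : Type} [DecidableEq α] (a : α → ι) (ha : Function.Injective a)
    (M : Matrix ι ι R) (k : ℤ) (h : Fil deg deg k (M - 1)) :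
    Fil (fun x => deg (a x)) (fun x => deg (a x)) k (M.submatrix a a - 1) := by
  intro x y hxy
  apply h
  intro h0
  apply hxy
  rw [Matrix.sub_apply] at h0 ⊢
  rw [Matrix.submatrix_apply]
  rw [Matrix.one_apply] at h0 ⊢
  simpa [ha.eq_iff] using h0

theorem fil_sub' {α β : Type} (a : α → ι) (b : β → ι)
    (M : Matrix ι ι R) (k : ℤ) (h : Fil deg deg k M) :
    Fil (fun x => deg (a x)) (fun x => deg (b x)) k (M.submatrix a b) :=
  fun x y hxy => h _ _ hxy

theorem ss_fil {d s : Matrix ι ι R} (hs : IsCt deg d s) : Fil deg deg 1 ((1 + s * s) - 1) := by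
  rw [add_sub_cancel_left]
  exact (hs.fil.mul hs.fil).mono (by norm_num)

/-- the torsion matrix is invertible -/
theorem tor_unit {d s : Matrix ι ι R} (hd : IsBd deg d) (hs : IsCt deg d s) (e : Ob deg ≃ Eb deg) :
    ∃ x : (Matrix (Ob deg) (Ob deg) R)ˣ, (x : Matrix (Ob deg) (Ob deg) R)
        = (tor deg d s).submatrix id e ∧
      Fil (fun i => deg (e i).1) (fun i => deg i.1) (-1)
        ((x⁻¹ : (Matrix (Ob deg) (Ob deg) R)ˣ) : Matrix (Ob deg) (Ob deg) R) := by
  classical
  obtain ⟨w, hw⟩ := unit_of_fil (fun i : Ob deg => deg i.1)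
    ((1 + s * s).submatrix Subtype.val Subtype.val)
    (fil_sub _ Subtype.val_injective _ 1 (ss_fil hs))
  obtain ⟨w', hw'⟩ := unit_of_fil (fun i : Ob deg => deg (e i).1)
    ((1 + s * s).submatrix (fun i : Ob deg => (e i).1) (fun i : Ob deg => (e i).1))
    (fil_sub _ (Subtype.val_injective.comp e.injective) _ 1 (ss_fil hs))
  have h1 : (tor deg d s).submatrix id e * (rot deg d s).submatrix e id = w := by
    rw [Matrix.submatrix_mul_equiv, tor_rot hd hs, hw]
    rfl
  have h2 : (rot deg d s).submatrix e id * (tor deg d s).submatrix id e = w' := by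
    rw [← Matrix.submatrix_mul _ _ _ id _ Function.bijective_id, rot_tor hd hs, hw']
    rfl
  have h3 : (tor deg d s).submatrix id e * ((rot deg d s).submatrix e id * w⁻¹.val) = 1 := by
    rw [← Matrix.mul_assoc, h1, Units.mul_inv]
  have h4 : (w'⁻¹.val * (rot deg d s).submatrix e id) * (tor deg d s).submatrix id e = 1 := by
    rw [Matrix.mul_assoc, h2, Units.inv_mul]
  have h5 : w'⁻¹.val * (rot deg d s).submatrix e id = (rot deg d s).submatrix e id * w⁻¹.val := by
    calc w'⁻¹.val * (rot deg d s).submatrix e id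
        = (w'⁻¹.val * (rot deg d s).submatrix e id)
          * ((tor deg d s).submatrix id e * ((rot deg d s).submatrix e id * w⁻¹.val)) := by
            rw [h3, Matrix.mul_one]
      _ = _ := by rw [← Matrix.mul_assoc, h4, Matrix.one_mul]
  refine ⟨⟨_, _, h3, by rw [← h5]; exact h4⟩, rfl, ?_⟩
  change Fil _ _ (-1) ((rot deg d s).submatrix e id * w⁻¹.val)
  have f1 : Fil (fun i => deg (e i).1) (fun i : Ob deg => deg i.1) (-1)
      ((rot deg d s).submatrix e id) := by
    refine fil_sub' (deg := deg) (fun i : Ob deg => (e i).1) (fun i : Ob deg => i.1)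
      (d + s) (-1) ?_
    exact hd.fil.add (hs.fil.mono (by norm_num))
  have f2 : Fil (fun i : Ob deg => deg i.1) (fun i : Ob deg => deg i.1) 0 w⁻¹.val := by
    apply fil_of_sub_one
    apply fil_inv _ w.val _ _ w.mul_inv
    rw [hw]
    exact fil_sub _ Subtype.val_injective _ 1 (ss_fil hs)
  simpa using f1.mul f2

/-- The torsion matrices for two contractions differ by elementary matrices. -/
theorem indep_factor {d s s' : Matrix ι ι R} (hd : IsBd deg d) (hs : IsCt deg d s)
    (hs' : IsCt deg d s') (e : Ob deg ≃ Eb deg) (x x' : (Matrix (Ob deg) (Ob deg) R)ˣ)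
    (hx : (x : Matrix (Ob deg) (Ob deg) R) = (tor deg d s).submatrix id e)
    (hx' : (x' : Matrix (Ob deg) (Ob deg) R) = (tor deg d s').submatrix id e) :
    ∃ n1 y n2 : (Matrix (Ob deg) (Ob deg) R)ˣ, n1.val ∈ El (R := R) (Ob deg) ∧
      y.val ∈ El (R := R) (Ob deg) ∧ n2.val ∈ El (R := R) (Ob deg) ∧
      x = n1⁻¹ * (y * x' * n2) := by
  classical
  set Δ := s' - s with hΔ
  set N := 1 + Δ * s with hN
  set r := Δ * s * s - s' * (Δ * s) with hr
  have hdΔ : d * Δ = -(Δ * d) := by
    have h1 := hs.eq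
    have h2 := hs'.eq
    rw [hΔ, Matrix.mul_sub, Matrix.sub_mul]
    have h3 : d * s' = 1 - s' * d := by rw [← h2]; abel
    have h4 : d * s = 1 - s * d := by rw [← h1]; abel
    rw [h3, h4]; abel
  have key : N * (d + s) = (d + s') * N + r := by
    have h4 : d * s = 1 - s * d := by rw [← hs.eq]; abel
    have h5 : d * (Δ * s) = -Δ + Δ * s * d := by
      rw [← Matrix.mul_assoc, hdΔ, Matrix.neg_mul, Matrix.mul_assoc, h4, Matrix.mul_sub,
        Matrix.mul_one, Matrix.mul_assoc]
      abel
    rw [hN, hr, Matrix.add_mul, Matrix.one_mul, Matrix.mul_add, Matrix.mul_add, Matrix.mul_one,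
      Matrix.add_mul, h5]
    rw [show s' = s + Δ by rw [hΔ]; abel]
    abel
  have fΔ : Fil deg deg 1 Δ := hs'.fil.sub hs.fil
  have fN : Fil deg deg 1 (N - 1) := by
    rw [hN, add_sub_cancel_left]
    exact (fΔ.mul hs.fil).mono (by norm_num)
  have fr : Fil deg deg 3 r := by
    rw [hr]
    exact ((fΔ.mul hs.fil).mul hs.fil).sub (by simpa using hs'.fil.mul (fΔ.mul hs.fil))
  -- parity of the entries of `N` and `r`
  have pΔ : ∀ i j, Δ i j ≠ 0 → deg j = deg i + 1 := by
    intro i j hne
    by_cases h1 : s' i j = 0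
    · apply hs.degree
      intro h2; apply hne
      rw [hΔ, Matrix.sub_apply, h1, h2, sub_zero]
    · exact hs'.degree i j h1
  have pN : ∀ i j, N i j ≠ 0 → (Even (deg i) ↔ Even (deg j)) := by
    intro i j hne
    by_cases h1 : i = j
    · rw [h1]
    · rw [hN, Matrix.add_apply, Matrix.one_apply_ne h1, zero_add, Matrix.mul_apply] at hne
      obtain ⟨k, _, hk⟩ := Finset.exists_ne_zero_of_sum_ne_zero hne
      have e1 := pΔ i k (fun h => hk (by rw [h, zero_mul]))
      have e2 := hs.degree k j (fun h => hk (by rw [h, mul_zero]))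
      rw [e2, e1]
      have : deg i + 1 + 1 = deg i + 2 := by ring
      rw [this, Int.even_add]
      simp
  obtain ⟨n1, hn1⟩ := unit_of_fil (fun i : Ob deg => deg i.1)
    (N.submatrix Subtype.val Subtype.val) (fil_sub _ Subtype.val_injective _ 1 fN)
  obtain ⟨n2, hn2⟩ := unit_of_fil (fun i : Ob deg => deg (e i).1)
    (N.submatrix (fun i : Ob deg => (e i).1) (fun i : Ob deg => (e i).1))
    (fil_sub _ (Subtype.val_injective.comp e.injective) _ 1 fN)
  have k1 : (N * (d + s)).submatrix (Subtype.val : Ob deg → ι) (fun i : Ob deg => (e i).1)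
      = n1.val * x.val := by
    rw [sub_mul (fun j => Odd (deg j)) _ _ _ _ (fun y j h => by
      rw [← Int.not_even_iff_odd, ← pN _ _ h, Int.not_even_iff_odd]
      exact y.2), hn1, hx]
    rfl
  have k2 : ((d + s') * N).submatrix (Subtype.val : Ob deg → ι) (fun i : Ob deg => (e i).1)
      = x'.val * n2.val := by
    rw [sub_mul (fun j => Even (deg j)) _ _ _ _ (fun y j h => (odd_of hd hs' h).1 y.2), hn2, hx']
    have : (d + s').submatrix (Subtype.val : Ob deg → ι) (Subtype.val : Eb deg → ι)
        * N.submatrix (Subtype.val : Eb deg → ι) (fun i : Ob deg => (e i).1)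
        = ((d + s').submatrix (Subtype.val : Ob deg → ι) (Subtype.val : Eb deg → ι)).submatrix id e
          * (N.submatrix (Subtype.val : Eb deg → ι) (fun i : Ob deg => (e i).1)).submatrix e id := by
      rw [Matrix.submatrix_mul_equiv]
      rfl
    exact this
  set r' := r.submatrix (Subtype.val : Ob deg → ι) (fun i : Ob deg => (e i).1) with hr'
  have k3 : n1.val * x.val = x'.val * n2.val + r' := by
    rw [← k1, ← k2, hr', key]
    rfl
  obtain ⟨x'', hx'', fx''⟩ := tor_unit hd hs' e
  have hxx : x'' = x' := Units.ext (by rw [hx'', hx'])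
  rw [hxx] at fx''
  set X := r' * (n2⁻¹.val * x'⁻¹.val) with hX
  have fX : Fil (fun i : Ob deg => deg i.1) (fun i : Ob deg => deg i.1) 1 ((1 + X) - 1) := by
    rw [add_sub_cancel_left]
    have f1 : Fil (fun i : Ob deg => deg i.1) (fun i : Ob deg => deg (e i).1) 3 r' :=
      fil_sub' _ _ _ _ fr
    have f2 : Fil (fun i : Ob deg => deg (e i).1) (fun i : Ob deg => deg (e i).1) 0 n2⁻¹.val := by
      apply fil_of_sub_one
      apply fil_inv _ n2.val _ _ n2.mul_inv
      rw [hn2]
      exact fil_sub _ (Subtype.val_injective.comp e.injective) _ 1 fN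
    exact (f1.mul (f2.mul fx'')).mono (by norm_num)
  obtain ⟨y, hy⟩ := unit_of_fil _ _ fX
  have k4 : n1 * x = y * x' * n2 := by
    apply Units.ext
    rw [Units.val_mul, Units.val_mul, Units.val_mul, hy, k3, Matrix.add_mul, Matrix.one_mul,
      Matrix.add_mul, hX]
    congr 1
    rw [Matrix.mul_assoc, Matrix.mul_assoc, Matrix.mul_assoc, ← Matrix.mul_assoc x'⁻¹.val,
      Units.inv_mul, Matrix.one_mul, Units.inv_mul, Matrix.mul_one]
  have k5 : x = n1⁻¹ * (y * x' * n2) := by rw [← k4]; group
  refine ⟨n1, y, n2, ?_, ?_, ?_, k5⟩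
  · rw [hn1]
    exact el_of_fil _ _ (fil_sub _ Subtype.val_injective _ 1 fN)
  · rw [hy]
    exact el_of_fil _ _ fX
  · rw [hn2]
    exact el_of_fil (fun i : Ob deg => deg (e i).1) _
      (fil_sub _ (Subtype.val_injective.comp e.injective) _ 1 fN)

/-- The torsion does not depend on the contraction. -/
theorem TT_indep (U : Subgroup Rˣ) {d s s' : Matrix ι ι R} (hd : IsBd deg d) (hs : IsCt deg d s)
    (hs' : IsCt deg d s') (e : Ob deg ≃ Eb deg) (x x' : (Matrix (Ob deg) (Ob deg) R)ˣ)
    (hx : (x : Matrix (Ob deg) (Ob deg) R) = (tor deg d s).submatrix id e)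
    (hx' : (x' : Matrix (Ob deg) (Ob deg) R) = (tor deg d s').submatrix id e)
    (h : TT U x') : TT U x := by
  obtain ⟨n1, y, n2, h1, h2, h3, h4⟩ := indep_factor hd hs hs' e x x' hx hx'
  rw [h4]
  exact TT_mul U _ _ (TT_inv U _ (TT_of_El U _ h1)) (TT_mul U _ _ (TT_mul U _ _
    (TT_of_El U _ h2) h) (TT_of_El U _ h3))

end gen

end TH6.CX
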