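import Pool.Agent.TH6.CX.Tor

set_option autoImplicit false
set_option linter.style.haveILetI false
set_option linter.unusedSectionVars false
set_option linter.unusedVariables false

/-! Contractible complexes with thin boundary operators over the integral group ring of a
torsion-free group have trivial Whitehead torsion. -/

namespace TH6.CX

open Matrix TH57.Thr TH6.LF

section trunc

variable {R : Type} [Ring R] {G : Type} [Group G] {ι β : Type} [Fintype ι] [DecidableEq ι]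

theorem trc_mul' (H : Subgroup G) (x y : MonoidAlgebra R G)
    (hy : ∀ g, y.coeff g ≠ 0 → g ∈ H) : trc H (x * y) = trc H x * y := by
  obtain ⟨y', hy'⟩ : ∃ y', MonoidAlgebra.mapDomainRingHom R H.subtype y' = y := ⟨_, trc_of H y hy⟩
  subst hy'
  unfold trc
  rw [TH6.PF.comap_mulR', map_mul]

/-- the truncated contraction -/
noncomputable def tct [DecidableEq β] (ρ : ι → β) (C : β → Subgroup G)
    (s : Matrix ι ι (MonoidAlgebra R G)) : Matrix ι ι (MonoidAlgebra R G) :=
  fun i j => if ρ i = ρ j then trc (C (ρ i)) (s i j) else 0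

theorem tct_apply [DecidableEq β] (ρ : ι → β) (C : β → Subgroup G)
    (s : Matrix ι ι (MonoidAlgebra R G)) (i j : ι) :
    tct ρ C s i j = if ρ i = ρ j then trc (C (ρ i)) (s i j) else 0 := rfl

theorem tct_supp [DecidableEq β] (ρ : ι → β) (C : β → Subgroup G)
    (s : Matrix ι ι (MonoidAlgebra R G)) (i j : ι) (g : G)
    (h : ((tct ρ C s) i j).coeff g ≠ 0) : ρ i = ρ j ∧ g ∈ C (ρ i) := by
  rw [tct_apply] at h
  by_cases h1 : ρ i = ρ j
  · rw [if_pos h1] at h
    exact ⟨h1, trc_supp _ _ _ h⟩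
  · rw [if_neg h1] at h
    exact absurd rfl h

theorem tct_mul [DecidableEq β] (ρ : ι → β) (C : β → Subgroup G)
    (d s : Matrix ι ι (MonoidAlgebra R G))
    (hd : ∀ i j g, (d i j).coeff g ≠ 0 → ρ i = ρ j ∧ g ∈ C (ρ i)) :
    tct ρ C (d * s) = d * tct ρ C s ∧ tct ρ C (s * d) = tct ρ C s * d := by
  have hd0 : ∀ i j, ρ i ≠ ρ j → d i j = 0 := fun i j h =>
    eq_zero_of fun g hg => h (hd i j g hg).1
  constructor
  · ext1 i k
    rw [tct_apply, Matrix.mul_apply, Matrix.mul_apply]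
    by_cases h1 : ρ i = ρ k
    · rw [if_pos h1, trc_sum]
      refine Finset.sum_congr rfl fun j _ => ?_
      by_cases h2 : ρ i = ρ j
      · rw [tct_apply, if_pos (by rw [← h2, h1]), trc_mul _ _ _ (fun g hg => (hd i j g hg).2), h2]
      · rw [hd0 i j h2, zero_mul, zero_mul, trc_zero]
    · rw [if_neg h1]
      symm
      apply Finset.sum_eq_zero
      intro j _
      by_cases h2 : ρ i = ρ j
      · rw [tct_apply, if_neg (fun h => h1 (by rw [h2, h])), mul_zero]
      · rw [hd0 i j h2, zero_mul]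
  · ext1 i k
    rw [tct_apply, Matrix.mul_apply, Matrix.mul_apply]
    by_cases h1 : ρ i = ρ k
    · rw [if_pos h1, trc_sum]
      refine Finset.sum_congr rfl fun j _ => ?_
      by_cases h2 : ρ i = ρ j
      · rw [tct_apply, if_pos h2,
          trc_mul' _ _ _ (fun g hg => by rw [h2]; exact (hd j k g hg).2)]
      · rw [hd0 j k (fun h => h2 (by rw [h1, h])), mul_zero, mul_zero, trc_zero]
    · rw [if_neg h1]
      symm
      apply Finset.sum_eq_zero
      intro j _
      by_cases h2 : ρ i = ρ j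
      · rw [hd0 j k (fun h => h1 (by rw [h2, h])), mul_zero]
      · rw [tct_apply, if_neg h2, zero_mul]

theorem tct_one [DecidableEq β] (ρ : ι → β) (C : β → Subgroup G) :
    tct (R := R) ρ C 1 = 1 := by
  ext1 i j
  rw [tct_apply]
  by_cases h : i = j
  · subst h
    rw [if_pos rfl, Matrix.one_apply_eq]
    exact trc_of _ _ (fun g hg => one_supp _ g hg)
  · rw [Matrix.one_apply_ne h, trc_zero, ite_self]

theorem tct_add [DecidableEq β] (ρ : ι → β) (C : β → Subgroup G)
    (s t : Matrix ι ι (MonoidAlgebra R G)) : tct ρ C (s + t) = tct ρ C s + tct ρ C t := by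
  ext1 i j
  rw [Matrix.add_apply, tct_apply, tct_apply, tct_apply, Matrix.add_apply]
  split_ifs
  · rw [trc_add]
  · rw [add_zero]

theorem tct_ct [DecidableEq β] (deg : ι → ℤ) (ρ : ι → β) (C : β → Subgroup G)
    (d s : Matrix ι ι (MonoidAlgebra R G)) (hs : IsCt deg d s)
    (hd : ∀ i j g, (d i j).coeff g ≠ 0 → ρ i = ρ j ∧ g ∈ C (ρ i)) :
    IsCt deg d (tct ρ C s) := by
  refine ⟨fun i j hij => ?_, ?_⟩
  · apply hs.degree
    intro h0
    apply hij
    rw [tct_apply, h0, trc_zero, ite_self]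
  · rw [← (tct_mul ρ C d s hd).1, ← (tct_mul ρ C d s hd).2, ← tct_add, hs.eq, tct_one]

end trunc

section TT

variable {Γ : Type} [Group Γ] (htf : ∀ g : Γ, ∀ k : ℕ, 0 < k → g ^ k = 1 → g = 1)

include htf in
/-- patterned matrices with different labels of rows and columns -/
theorem TT_pattern2 {κ β : Type} [Fintype κ] [DecidableEq κ] (r t : κ → β) (C : β → Subgroup Γ)
    (hC : ∀ b, IsCyclic (C b)) (B : (Matrix κ κ (MonoidAlgebra ℤ Γ))ˣ)
    (hBc : ∀ i j g, ((B : Matrix κ κ (MonoidAlgebra ℤ Γ)) i j).coeff g ≠ 0 →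
      r i = t j ∧ g ∈ C (r i)) : TT (TU Γ) B := by
  obtain ⟨σ, hσ⟩ := aug_perm B
  have hlab : ∀ i, r (σ i) = t i := by
    intro i
    have h1 := hσ i
    by_contra h2
    apply h1
    ext g
    by_contra h3
    exact h2 (hBc _ _ g h3).1
  have hP : TT (TU Γ) (pu (R := MonoidAlgebra ℤ Γ) σ) := by
    have h1 : pu (R := MonoidAlgebra ℤ Γ) σ
        = Units.map (mpm (Int.castRingHom (MonoidAlgebra ℤ Γ))) (pu (R := ℤ) σ) := by
      apply Units.ext
      ext1 i j
      change (1 : Matrix κ κ (MonoidAlgebra ℤ Γ)) (σ i) j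
        = (((1 : Matrix κ κ ℤ) (σ i) j : ℤ) : MonoidAlgebra ℤ Γ)
      rw [Matrix.one_apply, Matrix.one_apply]
      split_ifs <;> simp
    rw [h1]
    exact TT_im _
  have hPB : TT (TU Γ) (pu (R := MonoidAlgebra ℤ Γ) σ * B) := by
    apply TT_blocks htf _ κ le_rfl _ t C hC
    intro i j g hg
    have h1 : ((pu (R := MonoidAlgebra ℤ Γ) σ * B : (Matrix κ κ (MonoidAlgebra ℤ Γ))ˣ) :
        Matrix κ κ (MonoidAlgebra ℤ Γ)) i j = (B : Matrix κ κ (MonoidAlgebra ℤ Γ)) (σ i) j := by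
      change ((1 : Matrix κ κ (MonoidAlgebra ℤ Γ)).submatrix σ id
        * (B : Matrix κ κ (MonoidAlgebra ℤ Γ))) i j = _
      rw [← Matrix.submatrix_id_id (B : Matrix κ κ (MonoidAlgebra ℤ Γ)),
        ← Matrix.submatrix_mul _ _ σ id id Function.bijective_id, Matrix.one_mul,
        Matrix.submatrix_id_id]
      rfl
    rw [h1] at hg
    have h2 := hBc _ _ g hg
    rw [hlab] at h2
    exact h2
  have hB2 : B = (pu (R := MonoidAlgebra ℤ Γ) σ)⁻¹ * (pu (R := MonoidAlgebra ℤ Γ) σ * B) := by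
    group
  rw [hB2]
  exact TT_mul _ _ _ (TT_inv _ _ hP) hPB

variable {ι : Type} [Fintype ι] [DecidableEq ι]

theorem dgu_conj (u : ι → Γ) (M : Matrix ι ι (MonoidAlgebra ℤ Γ)) (i j : ι) :
    ((dgu u).val * M * (dgu u)⁻¹.val) i j
      = MonoidAlgebra.single (u i) 1 * M i j * MonoidAlgebra.single (u j)⁻¹ 1 := by
  change (Matrix.diagonal (fun i => MonoidAlgebra.single (u i) (1 : ℤ)) * M
      * Matrix.diagonal (fun j => MonoidAlgebra.single (u j)⁻¹ (1 : ℤ))) i j = _
  rw [Matrix.mul_diagonal, Matrix.diagonal_mul]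

theorem dgu_conj_ne (u : ι → Γ) (M : Matrix ι ι (MonoidAlgebra ℤ Γ)) (i j : ι)
    (h : ((dgu u).val * M * (dgu u)⁻¹.val) i j ≠ 0) : M i j ≠ 0 := by
  intro h0
  apply h
  rw [dgu_conj, h0, mul_zero, zero_mul]

theorem bd_conj (deg : ι → ℤ) (u : ι → Γ) (d : Matrix ι ι (MonoidAlgebra ℤ Γ))
    (hd : IsBd deg d) : IsBd deg ((dgu u).val * d * (dgu u)⁻¹.val) := by
  refine ⟨fun i j h => hd.degree i j (dgu_conj_ne u d i j h), ?_⟩
  calc (dgu u).val * d * (dgu u)⁻¹.val * ((dgu u).val * d * (dgu u)⁻¹.val)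
      = (dgu u).val * (d * ((dgu u)⁻¹.val * (dgu u).val) * d) * (dgu u)⁻¹.val := by
        simp only [Matrix.mul_assoc]
    _ = 0 := by
        rw [Units.inv_mul, Matrix.mul_one, hd.sq, Matrix.mul_zero, Matrix.zero_mul]

theorem ct_conj (deg : ι → ℤ) (u : ι → Γ) (d s : Matrix ι ι (MonoidAlgebra ℤ Γ))
    (hs : IsCt deg d s) :
    IsCt deg ((dgu u).val * d * (dgu u)⁻¹.val) ((dgu u).val * s * (dgu u)⁻¹.val) := by
  refine ⟨fun i j h => hs.degree i j (dgu_conj_ne u s i j h), ?_⟩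
  have e1 : ∀ a b : Matrix ι ι (MonoidAlgebra ℤ Γ),
      (dgu u).val * a * (dgu u)⁻¹.val * ((dgu u).val * b * (dgu u)⁻¹.val)
      = (dgu u).val * (a * b) * (dgu u)⁻¹.val := by
    intro a b
    calc (dgu u).val * a * (dgu u)⁻¹.val * ((dgu u).val * b * (dgu u)⁻¹.val)
        = (dgu u).val * (a * ((dgu u)⁻¹.val * (dgu u).val) * b) * (dgu u)⁻¹.val := by
          simp only [Matrix.mul_assoc]
      _ = _ := by rw [Units.inv_mul, Matrix.mul_one]
  rw [e1, e1, ← Matrix.add_mul, ← Matrix.mul_add, hs.eq, Matrix.mul_one, Units.mul_inv]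

include htf in
/-- **Thin contractible complexes have trivial torsion.** -/
theorem TT_complex (deg : ι → ℤ) (d s : Matrix ι ι (MonoidAlgebra ℤ Γ)) (hd : IsBd deg d)
    (hs : IsCt deg d s) (c : ℝ) (hc0 : 0 < c) (hc : c ^ 2 < 9 / 2) (hA : NormLE d c)
    (e : Ob deg ≃ Eb deg) (x : (Matrix (Ob deg) (Ob deg) (MonoidAlgebra ℤ Γ))ˣ)
    (hx : (x : Matrix (Ob deg) (Ob deg) (MonoidAlgebra ℤ Γ)) = (tor deg d s).submatrix id e) :
    TT (TU Γ) x := by
  classical
  obtain ⟨ρ, u, C, hC, hst⟩ := cx_structure htf deg d ⟨hd.degree, hd.sq⟩ c hc0 hc hA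
  set d1 := (dgu u).val * d * (dgu u)⁻¹.val with hd1
  set s1 := (dgu u).val * s * (dgu u)⁻¹.val with hs1
  have hbd := bd_conj deg u d hd
  have hct := ct_conj deg u d s hs
  rw [← hd1] at hbd
  rw [← hd1, ← hs1] at hct
  have hpat : ∀ i j g, (d1 i j).coeff g ≠ 0 → ρ i = ρ j ∧ g ∈ C (ρ i) := by
    intro i j g hg
    rw [hd1, dgu_conj, MonoidAlgebra.coeff_mul_single_apply, MonoidAlgebra.coeff_single_mul_apply,
      one_mul, mul_one, inv_inv] at hg
    have h1 := hst i j _ hg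
    refine ⟨h1.1, ?_⟩
    have h2 := h1.2
    have h3 : u i * ((u i)⁻¹ * (g * u j)) * (u j)⁻¹ = g := by group
    rwa [h3] at h2
  have hct2 := tct_ct deg ρ C d1 s1 hct hpat
  obtain ⟨x1, hx1, _⟩ := tor_unit hbd hct e
  obtain ⟨x2, hx2, _⟩ := tor_unit hbd hct2 e
  have t2 : TT (TU Γ) x2 := by
    apply TT_pattern2 htf (fun i : Ob deg => ρ i.1) (fun i : Ob deg => ρ (e i).1) C hC
    intro i j g hg
    rw [hx2] at hg
    change ((d1 + tct ρ C s1) i.1 (e j).1).coeff g ≠ 0 at hg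
    rw [Matrix.add_apply, coeff_add'] at hg
    by_cases h1 : (d1 i.1 (e j).1).coeff g = 0
    · rw [h1, zero_add] at hg
      exact tct_supp ρ C s1 _ _ g hg
    · exact hpat _ _ g h1
  have t1 : TT (TU Γ) x1 := TT_indep (TU Γ) hbd hct hct2 e x1 x2 hx1 hx2 t2
  have hxx : x = (dgu (fun i : Ob deg => u i.1))⁻¹ * x1 * dgu (fun i : Ob deg => u (e i).1) := by
    have h1 : x1 = dgu (fun i : Ob deg => u i.1) * x * (dgu (fun i : Ob deg => u (e i).1))⁻¹ := by
      apply Units.ext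
      ext1 i j
      rw [hx1]
      change (d1 + s1) i.1 (e j).1 = _
      have h2 : d1 + s1 = (dgu u).val * (d + s) * (dgu u)⁻¹.val := by
        rw [hd1, hs1, Matrix.mul_add, Matrix.add_mul]
      rw [h2, dgu_conj]
      change _ = (Matrix.diagonal (fun i : Ob deg => MonoidAlgebra.single (u i.1) (1 : ℤ)) * x.val
        * Matrix.diagonal (fun j : Ob deg => MonoidAlgebra.single (u (e j).1)⁻¹ (1 : ℤ))) i j
      rw [Matrix.mul_diagonal, Matrix.diagonal_mul, hx]
      rfl
    rw [h1]; group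
  rw [hxx]
  exact TT_mul _ _ _ (TT_mul _ _ _ (TT_inv _ _ (TT_dgu htf _)) t1) (TT_dgu htf _)

/-- a contractible complex has as many basis elements in odd as in even degrees -/
theorem card_eq (deg : ι → ℤ) (d s : Matrix ι ι (MonoidAlgebra ℤ Γ)) (hd : IsBd deg d)
    (hs : IsCt deg d s) : Nonempty (Ob deg ≃ Eb deg) := by
  classical
  let au : MonoidAlgebra ℤ Γ →+* ℤ := (MonoidAlgebra.lift ℤ ℤ Γ 1).toRingHom
  have hd' : IsBd deg (d.map au) := by
    refine ⟨fun i j h => hd.degree i j (fun h0 => h (by rw [Matrix.map_apply, h0, map_zero])), ?_⟩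
    rw [← Matrix.map_mul, hd.sq]
    exact Matrix.map_zero _ (map_zero au)
  have hs' : IsCt deg (d.map au) (s.map au) := by
    refine ⟨fun i j h => hs.degree i j (fun h0 => h (by rw [Matrix.map_apply, h0, map_zero])), ?_⟩
    rw [← Matrix.map_mul, ← Matrix.map_mul, ← Matrix.map_add _ (map_add au), hs.eq,
      Matrix.map_one _ (map_zero au) (map_one au)]
  obtain ⟨w, hw⟩ := unit_of_fil (fun i : Ob deg => deg i.1)
    ((1 + s.map au * s.map au).submatrix Subtype.val Subtype.val)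
    (fil_sub _ Subtype.val_injective _ 1 (ss_fil hs'))
  obtain ⟨w', hw'⟩ := unit_of_fil (fun i : Eb deg => deg i.1)
    ((1 + s.map au * s.map au).submatrix Subtype.val Subtype.val)
    (fil_sub _ Subtype.val_injective _ 1 (ss_fil hs'))
  have h1 := tor_rot hd' hs'
  have h2 := rot_tor hd' hs'
  rw [← hw] at h1
  rw [← hw'] at h2
  have h3 : tor deg (d.map au) (s.map au) * (rot deg (d.map au) (s.map au) * w⁻¹.val) = 1 := by
    rw [← Matrix.mul_assoc, h1, Units.mul_inv]
  have h4 : (w'⁻¹.val * rot deg (d.map au) (s.map au)) * tor deg (d.map au) (s.map au) = 1 := by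
    rw [Matrix.mul_assoc, h2, Units.inv_mul]
  have h5 : w'⁻¹.val * rot deg (d.map au) (s.map au)
      = rot deg (d.map au) (s.map au) * w⁻¹.val := by
    calc w'⁻¹.val * rot deg (d.map au) (s.map au)
        = (w'⁻¹.val * rot deg (d.map au) (s.map au))
          * (tor deg (d.map au) (s.map au) * (rot deg (d.map au) (s.map au) * w⁻¹.val)) := by
            rw [h3, Matrix.mul_one]
      _ = _ := by rw [← Matrix.mul_assoc, h4, Matrix.one_mul]
  rw [h5] at h4
  exact ⟨Fintype.equivOfCardEq (Matrix.square_of_invertible _ _ h3 h4)⟩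

end TT

end TH6.CX
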