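import Pool.Agent.TH6.CX.Fin
import Pool.Agent.TH6.CX.QMain

set_option autoImplicit false
set_option linter.style.haveILetI false
set_option linter.unusedSectionVars false
set_option linter.unusedVariables false

/-! Complexes with thin boundary operators over the integral group ring of any group. -/

namespace TH6.CX

open Matrix TH57.Thr TH6.LF TH6.PF

section el

variable {R : Type} [Ring R] {G : Type} [Group G] {κ : Type} [Fintype κ] [DecidableEq κ]

theorem tv_add (i j : κ) (h : i ≠ j) (a b : MonoidAlgebra R G) :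
    tv i j h (a + b) = tv i j h a * tv i j h b := by
  apply Units.ext
  change 1 + Matrix.single i j (a + b) = (1 + Matrix.single i j a) * (1 + Matrix.single i j b)
  rw [add_mul, one_mul, mul_add, mul_one, Matrix.single_mul_single_of_ne _ _ _ _ h.symm,
    Matrix.single_add]
  abel

theorem tv_mem (i j : κ) (h : i ≠ j) (a : MonoidAlgebra R G) : tv i j h a ∈ VCGen R G κ := by
  induction a using MonoidAlgebra.induction_linear with
  | zero =>
    have : tv i j h (0 : MonoidAlgebra R G) = 1 := by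
      apply Units.ext
      change 1 + Matrix.single i j (0 : MonoidAlgebra R G) = 1
      rw [Matrix.single_zero, add_zero]
    rw [this]
    exact one_mem _
  | add a b ha hb => rw [tv_add]; exact mul_mem ha hb
  | single g r =>
    apply gen_of_supp _ (Subgroup.zpowers g) (isVC_zpowers g)
    intro k l x hx
    change ((1 + Matrix.single i j (MonoidAlgebra.single g r) :
      Matrix κ κ (MonoidAlgebra R G)) k l).coeff x ≠ 0 at hx
    rw [Matrix.add_apply, MonoidAlgebra.coeff_add, Finsupp.add_apply] at hx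
    by_cases h1 : ((1 : Matrix κ κ (MonoidAlgebra R G)) k l).coeff x = 0
    · rw [h1, zero_add, Matrix.single_apply] at hx
      split_ifs at hx with h2
      · have : x = g := by
          by_contra h3
          apply hx
          rw [MonoidAlgebra.coeff_single, Finsupp.single_eq_of_ne h3]
        rw [this]
        exact Subgroup.mem_zpowers g
      · exact absurd rfl hx
    · rw [Matrix.one_apply] at h1
      split_ifs at h1 with h2
      · exact one_supp _ x h1
      · exact absurd rfl h1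

theorem El_mem (x : (Matrix κ κ (MonoidAlgebra R G))ˣ)
    (h : x.val ∈ El (R := MonoidAlgebra R G) κ) : x ∈ VCGen R G κ := by
  have key : ∀ M ∈ El (R := MonoidAlgebra R G) κ,
      ∃ u : (Matrix κ κ (MonoidAlgebra R G))ˣ, u.val = M ∧ u ∈ VCGen R G κ := by
    intro M hM
    induction hM using Submonoid.closure_induction with
    | mem x hx =>
      obtain ⟨i, j, hij, a, rfl⟩ := hx
      exact ⟨tv i j hij a, rfl, tv_mem i j hij a⟩
    | one => exact ⟨1, rfl, one_mem _⟩
    | mul x y _ _ hx hy =>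
      obtain ⟨u, hu1, hu2⟩ := hx
      obtain ⟨v, hv1, hv2⟩ := hy
      exact ⟨u * v, by rw [Units.val_mul, hu1, hv1], mul_mem hu2 hv2⟩
  obtain ⟨u, hu1, hu2⟩ := key _ h
  have : x = u := Units.ext hu1.symm
  rw [this]; exact hu2

end el

variable {Γ : Type} [Group Γ] {ι : Type} [Fintype ι] [DecidableEq ι]

/-- The structure of complexes with thin boundary operators, all groups. -/
theorem cx_structure_vc (deg : ι → ℤ) (d : Matrix ι ι (MonoidAlgebra ℤ Γ))
    (hd : IsBoundary deg d) (c : ℝ) (hc0 : 0 < c) (hc : c ^ 2 < 9 / 2) (hA : NormLE d c) :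
    ∃ (ρ : ι → ι) (u : ι → Γ) (C : ι → Subgroup Γ),
      (∀ b, IsVC (C b)) ∧ InBlocks ρ C (Dm u * d * adj (Dm u)) := by
  obtain ⟨ρ, u, C, hC, hst⟩ := sym_structure_vc (d + adj d) (sym_add_adj d) c hc0 hc
    (norm_sym d hd.sq c hc0 hA)
  refine ⟨ρ, u, C, hC, fun i j g hne => ?_⟩
  rw [Dm_mul] at hne
  have h1 := hst i j _ (coeff_of_boundary deg d hd i j _ hne)
  refine ⟨h1.1, ?_⟩
  have h2 := h1.2
  have h3 : u i * ((u i)⁻¹ * g * u j) * (u j)⁻¹ = g := by group
  rwa [h3] at h2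

theorem VC_complex (deg : ι → ℤ) (d s : Matrix ι ι (MonoidAlgebra ℤ Γ)) (hd : IsBd deg d)
    (hs : IsCt deg d s) (c : ℝ) (hc0 : 0 < c) (hc : c ^ 2 < 9 / 2) (hA : NormLE d c)
    (e : Ob deg ≃ Eb deg) (x : (Matrix (Ob deg) (Ob deg) (MonoidAlgebra ℤ Γ))ˣ)
    (hx : (x : Matrix (Ob deg) (Ob deg) (MonoidAlgebra ℤ Γ)) = (tor deg d s).submatrix id e) :
    x ∈ VCGen ℤ Γ (Ob deg) := by
  classical
  obtain ⟨ρ, u, C, hC, hpat⟩ := cx_structure_vc deg d ⟨hd.degree, hd.sq⟩ c hc0 hc hA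
  set d1 := cj u d with hd1
  set s1 := cj u s with hs1
  have hbd : IsBd deg d1 := by
    have := boundary_cj u (p := deg) (d := d) ⟨hd.degree, hd.sq⟩
    exact ⟨this.degree, this.sq⟩
  have hct : IsCt deg d1 s1 := by
    have := contraction_cj u (p := deg) (d := d) (s := s) ⟨hs.degree, hs.eq⟩
    exact ⟨this.degree, this.eq⟩
  have hct2 := tct_ct deg ρ C d1 s1 hct hpat
  obtain ⟨x1, hx1, _⟩ := tor_unit hbd hct e
  obtain ⟨x2, hx2, _⟩ := tor_unit hbd hct2 e
  have t2 : x2 ∈ VCGen ℤ Γ (Ob deg) := by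
    refine block_mem C hC (fun i : Ob deg => ρ i.1) (fun i : Ob deg => ρ (e i).1) x2 ?_
    intro i j g hg
    rw [hx2] at hg
    change ((d1 + tct ρ C s1) i.1 (e j).1).coeff g ≠ 0 at hg
    rw [Matrix.add_apply, coeff_add'] at hg
    by_cases h1 : (d1 i.1 (e j).1).coeff g = 0
    · rw [h1, zero_add] at hg
      exact tct_supp ρ C s1 _ _ g hg
    · exact hpat _ _ g h1
  have t1 : x1 ∈ VCGen ℤ Γ (Ob deg) := by
    obtain ⟨n1, y, n2, h1, h2, h3, h4⟩ := indep_factor hbd hct hct2 e x1 x2 hx1 hx2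
    rw [h4]
    exact mul_mem (inv_mem (El_mem _ h1)) (mul_mem (mul_mem (El_mem _ h2) t2) (El_mem _ h3))
  have hxx : x = (dmU ℤ (fun i : Ob deg => u i.1))⁻¹ * x1
      * dmU ℤ (fun i : Ob deg => u (e i).1) := by
    have h1 : x1 = dmU ℤ (fun i : Ob deg => u i.1) * x
        * (dmU ℤ (fun i : Ob deg => u (e i).1))⁻¹ := by
      apply Units.ext
      ext i j g
      rw [hx1, Units.val_mul, Units.val_mul, coeff_dmU]
      change ((d1 + s1) i.1 (e j).1).coeff g = _
      have h2 : d1 + s1 = cj u (d + s) := by rw [hd1, hs1, cj_add]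
      rw [h2, coeff_cj, hx]
      rfl
    rw [h1]; group
  rw [hxx]
  exact mul_mem (mul_mem (inv_mem (dmU_mem _)) t1) (dmU_mem _)

theorem VC_contraction (deg : ι → ℤ) (d s : Matrix ι ι (MonoidAlgebra ℤ Γ)) (hd : IsBd deg d)
    (hs : IsCt deg d s) (hss : s * s = 0) (c : ℝ) (hc0 : 0 < c) (hc : c ^ 2 < 9 / 2)
    (hA : NormLE s c) (e : Ob deg ≃ Eb deg)
    (x : (Matrix (Ob deg) (Ob deg) (MonoidAlgebra ℤ Γ))ˣ)
    (hx : (x : Matrix (Ob deg) (Ob deg) (MonoidAlgebra ℤ Γ)) = (tor deg d s).submatrix id e) :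
    x ∈ VCGen ℤ Γ (Ob deg) := by
  classical
  let deg' : ι → ℤ := fun i => -deg i
  have hd' : IsBd deg' s := ⟨fun i j h => by
    have := hs.degree i j h
    change -deg i = -deg j + 1
    omega, hss⟩
  have hs' : IsCt deg' s d := ⟨fun i j h => by
    have := hd.degree i j h
    change -deg j = -deg i + 1
    omega, by rw [add_comm]; exact hs.eq⟩
  let eo : Ob deg' ≃ Ob deg := Equiv.subtypeEquivRight (fun i => by
    change Odd (-deg i) ↔ Odd (deg i)
    exact odd_neg)
  let ee : Eb deg' ≃ Eb deg := Equiv.subtypeEquivRight (fun i => by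
    change Even (-deg i) ↔ Even (deg i)
    exact even_neg)
  let e' : Ob deg' ≃ Eb deg' := (eo.trans e).trans ee.symm
  have h1 : Units.map (re (R := MonoidAlgebra ℤ Γ) eo) x ∈ VCGen ℤ Γ (Ob deg') := by
    apply VC_complex deg' s d hd' hs' c hc0 hc hA e'
    ext1 i j
    change (x : Matrix (Ob deg) (Ob deg) (MonoidAlgebra ℤ Γ)) (eo i) (eo j) = _
    rw [hx]
    change (d + s) (eo i).1 (e (eo j)).1 = (s + d) i.1 (e' j).1
    rw [add_comm d s]
    rfl
  have h3 : x = Units.map (re (R := MonoidAlgebra ℤ Γ) eo.symm)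
      (Units.map (re (R := MonoidAlgebra ℤ Γ) eo) x) := by
    apply Units.ext
    ext1 i j
    change _ = (x : Matrix (Ob deg) (Ob deg) (MonoidAlgebra ℤ Γ)) (eo (eo.symm i)) (eo (eo.symm j))
    rw [Equiv.apply_symm_apply, Equiv.apply_symm_apply]
  have h4 : VCGen ℤ Γ (Ob deg') ≤ (VCGen ℤ Γ (Ob deg)).comap
      (Units.map (re (R := MonoidAlgebra ℤ Γ) eo.symm)) := by
    refine (Subgroup.closure_le _).2 ?_
    rintro z ⟨C, y, hC, hz⟩
    refine Subgroup.subset_closure ⟨C, Units.map (re (R := MonoidAlgebra ℤ C) eo.symm) y, hC, ?_⟩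
    ext1 i j
    change z.val (eo.symm i) (eo.symm j) = _
    rw [hz]
    rfl
  rw [h3]
  exact h4 h1

theorem main_vc (deg : ι → ℤ) (d : Matrix ι ι (MonoidAlgebra ℤ Γ)) (hd : IsBoundary deg d)
    (c : ℝ) (hc0 : 0 < c) (hc : c ^ 2 < 9 / 2)
    (hthin : NormLE d c ∨ ∃ t, IsContraction deg d t ∧ t * t = 0 ∧ NormLE t c)
    (s : Matrix ι ι (MonoidAlgebra ℤ Γ)) (hs : IsContraction deg d s) :
    Nonempty ({i // Odd (deg i)} ≃ {i // Even (deg i)}) ∧
    ∀ e : {i // Odd (deg i)} ≃ {i // Even (deg i)},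
      ∃ T : (Matrix {i // Odd (deg i)} {i // Odd (deg i)} (MonoidAlgebra ℤ Γ))ˣ,
        T.val = torsionMatrix deg d s e ∧ T ∈ VCGen ℤ Γ {i // Odd (deg i)} := by
  have hd' : IsBd deg d := ⟨hd.degree, hd.sq⟩
  have hs' : IsCt deg d s := ⟨hs.degree, hs.eq⟩
  refine ⟨card_eq deg d s hd' hs', fun e => ?_⟩
  obtain ⟨x, hx, _⟩ := tor_unit hd' hs' e
  refine ⟨x, by rw [hx]; rfl, ?_⟩
  rcases hthin with hA | ⟨t, ht, htt, hA⟩
  · exact VC_complex deg d s hd' hs' c hc0 hc hA e x hx
  · have ht' : IsCt deg d t := ⟨ht.degree, ht.eq⟩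
    obtain ⟨y, hy, _⟩ := tor_unit hd' ht' e
    obtain ⟨n1, z, n2, h1, h2, h3, h4⟩ := indep_factor hd' hs' ht' e x y hx hy
    rw [h4]
    exact mul_mem (inv_mem (El_mem _ h1)) (mul_mem (mul_mem (El_mem _ h2)
      (VC_contraction deg d t hd' ht' htt c hc0 hc hA e y hy)) (El_mem _ h3))

end TH6.CX
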